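import Pool.Agent.Helper35.OB.AMG0

/-!
# Project OB, layer AM, block AM-G2: comparison of two decompositions (linear algebra)

PROOF. `M' = U M W`, `U`, `W` unitary. Entries of unitary matrices have modulus at most one (`norm_apply_le` style: `∑ j, ‖U i j‖² = 1`).
(1) `mu ≤ C₁ mu'`: the space of the `x` supported on the last two indices has dimension 2 (`2 ≤ N`), so there is `x ≠ 0` there with `(U M x) 0 = 0` (explicitly: `x = b e_{N-2} - a e_{N-1}` with
`a = (U M) 0 (N-2)`, `b = (U M) 0 (N-1)`, or any `x` if `a = b = 0`). `U M x = M' (Wᴴ x)`, so for `i ≠ 0`: `|(U M x) i| ≤ K mu' ∑_k |(Wᴴ x) k| ≤ K mu' √N ‖x‖`; hence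
`c² mu² ‖x‖² ≤ ‖M x‖² = ‖U M x‖² = ∑_{i ≠ 0} ≤ N · K² mu'² N ‖x‖²`: `c mu ≤ N K mu'`. By symmetry (`M = Uᴴ M' Wᴴ`): `c mu' ≤ N K mu`.
(2) `c lam mu ≤ ‖M 0 j‖ ≤ √(ns M) = √(ns M') ≤ N lam' mu'`. With (1): `c lam mu ≤ N lam' (N K / c) mu`, so `lam ≤ (N² K / c²) lam'`. By symmetry `lam' ≤ (N² K / c²) lam`.
(3) Let `j` be as in `row` for `M`. For `i ≠ 0`: `(U M) i j = ∑ k, M' i k (Wᴴ) k j` has modulus `≤ N K mu'`, and `(U M) i j = U i 0 M 0 j + ∑_{l ≠ 0} U i l M l j`, the last sum of modulus `≤ N K mu`. So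
`|U i 0| c lam mu ≤ |U i 0| |M 0 j| ≤ N K mu' + N K mu ≤ (N K (N K / c) + N K) mu`: divide by `c mu`.
-/

set_option autoImplicit false
set_option linter.unusedSectionVars false

open Filter Topology Matrix

namespace Pool.Agent.Helper35.OB

open Pool.Agent.Helper84 Pool.Agent.Helper84.NI Pool.Agent.Helper90.RK Pool.Agent.Helper55.OB Pool.Agent.Helper96.RK

private theorem vec_norm4 {N : ℕ} {U : MN N} (hU : IsU U) (x : Fin N → ℂ) :
    ∑ i, ‖(U *ᵥ x) i‖ ^ 2 = ∑ i, ‖x i‖ ^ 2 := by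
  have h := ns_unitary_mul hU (Matrix.of fun (i : Fin N) (_ : Unit) => x i)
  unfold ns at h
  simp only [Finset.univ_unique, Finset.sum_singleton] at h
  have h2 : ∀ i, (U * (Matrix.of fun (i : Fin N) (_ : Unit) => x i)) i default = (U *ᵥ x) i := by
    intro i
    rw [Matrix.mul_apply, Matrix.mulVec, dotProduct]
    rfl
  simp only [h2] at h
  exact h

private theorem ent_le4 {N : ℕ} {U : MN N} (hU : IsU U) (i j : Fin N) : ‖U i j‖ ≤ 1 := by
  have h := vec_norm4 hU (Pi.single j 1)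
  have h1 : ∑ i, ‖(Pi.single j 1 : Fin N → ℂ) i‖ ^ 2 = 1 := by
    rw [Finset.sum_eq_single j]
    · simp
    · intro k _ hk
      rw [Pi.single_eq_of_ne hk]
      simp
    · intro hj
      exact absurd (Finset.mem_univ j) hj
  rw [h1] at h
  have h2 : ‖(U *ᵥ (Pi.single j 1 : Fin N → ℂ)) i‖ ^ 2 ≤ 1 := by
    rw [← h]
    exact Finset.single_le_sum (f := fun k => ‖(U *ᵥ (Pi.single j 1 : Fin N → ℂ)) k‖ ^ 2)
      (fun _ _ => by positivity) (Finset.mem_univ i)
  have h3 : (U *ᵥ (Pi.single j 1 : Fin N → ℂ)) i = U i j := by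
    rw [Matrix.mulVec_single_one]
    rfl
  rw [h3] at h2
  nlinarith [norm_nonneg (U i j)]

private theorem exists_x4 {N : ℕ} (hN : 5 ≤ N) (M : MN N) (z : Fin N) : ∃ x : Fin N → ℂ,
    0 < ∑ j, ‖x j‖ ^ 2 ∧ (∀ j : Fin N, (j : ℕ) + 2 < N → x j = 0) ∧ (M *ᵥ x) z = 0 := by
  obtain ⟨p, hp⟩ : ∃ p : Fin N, (p : ℕ) = N - 2 := ⟨⟨N - 2, by omega⟩, rfl⟩
  obtain ⟨q, hq⟩ : ∃ q : Fin N, (q : ℕ) = N - 1 := ⟨⟨N - 1, by omega⟩, rfl⟩
  have hpq : p ≠ q := by
    intro h
    rw [h] at hp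
    omega
  have hpos : ∀ (x : Fin N → ℂ) (j : Fin N), x j ≠ 0 → 0 < ∑ j, ‖x j‖ ^ 2 := by
    intro x j hj
    refine lt_of_lt_of_le (b := ‖x j‖ ^ 2) (by positivity) ?_
    exact Finset.single_le_sum (f := fun k => ‖x k‖ ^ 2) (fun _ _ => by positivity) (Finset.mem_univ j)
  by_cases h0 : M z p = 0
  · refine ⟨Pi.single p 1, hpos _ p (by simp), ?_, ?_⟩
    · intro j hj
      have : j ≠ p := by
        intro h
        rw [h] at hj
        omega
      rw [Pi.single_eq_of_ne this]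
    · rw [Matrix.mulVec_single_one]
      exact h0
  · refine ⟨M z q • Pi.single p 1 - M z p • Pi.single q 1, hpos _ q ?_, ?_, ?_⟩
    · simp [Pi.single_eq_of_ne hpq.symm, h0]
    · intro j hj
      have h1 : j ≠ p := by
        intro h
        rw [h] at hj
        omega
      have h2 : j ≠ q := by
        intro h
        rw [h] at hj
        omega
      simp [Pi.single_eq_of_ne h1, Pi.single_eq_of_ne h2]
    · rw [Matrix.mulVec_sub, Matrix.mulVec_smul, Matrix.mulVec_smul, Matrix.mulVec_single_one,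
        Matrix.mulVec_single_one]
      simp only [Pi.sub_apply, Pi.smul_apply, smul_eq_mul, Matrix.col_apply]
      ring

private theorem mu_le4 {N : ℕ} (hN : 5 ≤ N) {c K : ℝ} (hc : 0 < c) (hK : 1 ≤ K) {M M' U W : MN N} {lam mu lam' mu' : ℝ}
    (hmu : 0 < mu) (hmu' : 0 < mu') (h : Sh N c K lam mu M) (h' : Sh N c K lam' mu' M') (hU : IsU U) (hW : IsU W)
    (e : M' * Wᴴ = U * M) : c * mu ≤ N * K * mu' := by
  obtain ⟨z, hz⟩ : ∃ z : Fin N, (z : ℕ) = 0 := ⟨⟨0, by omega⟩, rfl⟩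
  obtain ⟨x, hx0, hx, hxz⟩ := exists_x4 hN (U * M) z
  obtain ⟨y, hy⟩ : ∃ y : Fin N → ℂ, y = Wᴴ *ᵥ x := ⟨_, rfl⟩
  have hyx : ∑ k, ‖y k‖ ^ 2 = ∑ k, ‖x k‖ ^ 2 := by
    rw [hy, vec_norm4 hW.star]
  have e1 : (U * M) *ᵥ x = M' *ᵥ y := by
    rw [← e, hy, Matrix.mulVec_mulVec]
  have h1 := h.plane x hx
  have h2 : ∑ i, ‖(M *ᵥ x) i‖ ^ 2 = ∑ i, ‖(M' *ᵥ y) i‖ ^ 2 := by
    rw [← e1, ← Matrix.mulVec_mulVec, vec_norm4 hU]
  have hN0 : (0 : ℝ) < N := by
    have : 0 < N := by omega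
    exact_mod_cast this
  obtain ⟨X, hX⟩ : ∃ X : ℝ, X = ∑ k, ‖x k‖ ^ 2 := ⟨_, rfl⟩
  rw [← hX] at hyx h1 hx0
  have h3 : ∀ i, ‖(M' *ᵥ y) i‖ ^ 2 ≤ (K * mu') ^ 2 * (N * X) := by
    intro i
    by_cases hi : (i : ℕ) = 0
    · have : i = z := Fin.ext (by rw [hi, hz])
      rw [this, ← e1, hxz, norm_zero, zero_pow two_ne_zero]
      positivity
    · have h4 : ‖(M' *ᵥ y) i‖ ≤ K * mu' * ∑ k, ‖y k‖ := by
        rw [Matrix.mulVec, dotProduct, Finset.mul_sum]
        refine (norm_sum_le _ _).trans (Finset.sum_le_sum fun k _ => ?_)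
        rw [norm_mul]
        exact mul_le_mul_of_nonneg_right (h'.low i k hi) (norm_nonneg _)
      have h5 : (∑ k, ‖y k‖) ^ 2 ≤ N * X := by
        have := sq_sum_le_card_mul_sum_sq (s := (Finset.univ : Finset (Fin N))) (f := fun k => ‖y k‖)
        rwa [Finset.card_univ, Fintype.card_fin, hyx] at this
      calc ‖(M' *ᵥ y) i‖ ^ 2 ≤ (K * mu' * ∑ k, ‖y k‖) ^ 2 := pow_le_pow_left₀ (norm_nonneg _) h4 2
        _ = (K * mu') ^ 2 * (∑ k, ‖y k‖) ^ 2 := by ring
        _ ≤ _ := mul_le_mul_of_nonneg_left h5 (by positivity)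
  have h6 : c ^ 2 * mu ^ 2 * X ≤ N * ((K * mu') ^ 2 * (N * X)) := by
    refine h1.trans ?_
    rw [h2]
    refine (Finset.sum_le_sum fun i _ => h3 i).trans ?_
    rw [Finset.sum_const, Finset.card_univ, Fintype.card_fin, nsmul_eq_mul]
  have h7 : (c * mu) ^ 2 ≤ (N * K * mu') ^ 2 := by
    refine le_of_mul_le_mul_right ?_ hx0
    calc (c * mu) ^ 2 * X = c ^ 2 * mu ^ 2 * X := by ring
      _ ≤ _ := h6
      _ = _ := by ring
  have hK0 : 0 < K := by linarith
  exact (sq_le_sq₀ (by positivity) (by positivity)).1 h7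

private theorem lam_le4 {N : ℕ} (hN : 5 ≤ N) {c K : ℝ} {M M' U W : MN N} {lam mu lam' mu' : ℝ}
    (hlam' : 0 < lam') (hmu' : 0 < mu') (h : Sh N c K lam mu M) (h' : Sh N c K lam' mu' M') (hU : IsU U) (hW : IsU W)
    (e : M' * Wᴴ = U * M) : c * lam * mu ≤ N * (lam' * mu') := by
  obtain ⟨i, j, -, hij⟩ := h.row
  refine hij.trans ?_
  have h1 : ns M = ns M' := by
    rw [← ns_unitary_mul hU M, ← e, ns_mul_unitary hW.star]
  have h2 := norm_apply_sq_le M i j
  rw [h1] at h2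
  have h3 : ns M' ≤ (N * (lam' * mu')) ^ 2 := by
    unfold ns
    have h4 : ∀ i : Fin N, ∑ j, ‖M' i j‖ ^ 2 ≤ N * (lam' * mu') ^ 2 := by
      intro i
      refine (Finset.sum_le_sum fun j _ => pow_le_pow_left₀ (norm_nonneg _) (h'.top i j) 2).trans ?_
      rw [Finset.sum_const, Finset.card_univ, Fintype.card_fin, nsmul_eq_mul]
    refine (Finset.sum_le_sum fun i _ => h4 i).trans ?_
    rw [Finset.sum_const, Finset.card_univ, Fintype.card_fin, nsmul_eq_mul]
    exact le_of_eq (by ring)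
  exact (sq_le_sq₀ (norm_nonneg _) (by positivity)).1 (h2.trans h3)

/-- **Block AM-G2.** -/
theorem sh_compare {N : ℕ} (hN : 5 ≤ N) {c K : ℝ} (hc : 0 < c) (hK : 1 ≤ K) : ∃ C : ℝ, 1 ≤ C ∧
    ∀ (M M' U W : MN N) (lam mu lam' mu' : ℝ), 0 < lam → 0 < mu → 0 < lam' → 0 < mu' → Sh N c K lam mu M →
      Sh N c K lam' mu' M' → IsU U → IsU W → M' = U * M * W →
      lam ≤ C * lam' ∧ lam' ≤ C * lam ∧ ∀ i z : Fin N, (i : ℕ) ≠ 0 → (z : ℕ) = 0 → ‖U i z‖ * lam ≤ C := by
  have hN0 : (0 : ℝ) < N := by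
    have : 0 < N := by omega
    exact_mod_cast this
  have hK0 : 0 < K := by linarith
  obtain ⟨C1, hC1⟩ : ∃ C1 : ℝ, C1 = N ^ 2 * K / c ^ 2 := ⟨_, rfl⟩
  obtain ⟨C2, hC2⟩ : ∃ C2 : ℝ, C2 = N * K * (N * K / c + 1) / c := ⟨_, rfl⟩
  have hC1p : 0 ≤ C1 := by rw [hC1]; positivity
  have hC2p : 0 ≤ C2 := by rw [hC2]; positivity
  refine ⟨1 + C1 + C2, by linarith, ?_⟩
  intro M M' U W lam mu lam' mu' hl hm hl' hm' h h' hU hW e
  have e1 : M' * Wᴴ = U * M := by
    rw [e, Matrix.mul_assoc, hW.mul_star, Matrix.mul_one]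
  have hUU : Uᴴ * U = 1 := hU
  have hWW : Wᴴ * W = 1 := hW
  have e2 : M * (Wᴴ)ᴴ = Uᴴ * M' := by
    rw [Matrix.conjTranspose_conjTranspose, e, ← Matrix.mul_assoc, ← Matrix.mul_assoc, hUU, Matrix.one_mul]
  have a1 := mu_le4 hN hc hK hm hm' h h' hU hW e1
  have a2 := mu_le4 hN hc hK hm' hm h' h hU.star hW.star e2
  have b1 := lam_le4 hN hl' hm' h h' hU hW e1
  have b2 := lam_le4 hN hl hm h' h hU.star hW.star e2
  have r1 : lam ≤ C1 * lam' := by
    have h1 : c ^ 2 * lam * mu ≤ N ^ 2 * K * lam' * mu := by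
      calc c ^ 2 * lam * mu = c * (c * lam * mu) := by ring
        _ ≤ c * (N * (lam' * mu')) := mul_le_mul_of_nonneg_left b1 hc.le
        _ = N * lam' * (c * mu') := by ring
        _ ≤ N * lam' * (N * K * mu) := mul_le_mul_of_nonneg_left a2 (by positivity)
        _ = _ := by ring
    have h2 : c ^ 2 * lam ≤ N ^ 2 * K * lam' := le_of_mul_le_mul_right h1 hm
    rw [hC1, div_mul_eq_mul_div, le_div_iff₀ (by positivity)]
    linarith
  have r2 : lam' ≤ C1 * lam := by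
    have h1 : c ^ 2 * lam' * mu' ≤ N ^ 2 * K * lam * mu' := by
      calc c ^ 2 * lam' * mu' = c * (c * lam' * mu') := by ring
        _ ≤ c * (N * (lam * mu)) := mul_le_mul_of_nonneg_left b2 hc.le
        _ = N * lam * (c * mu) := by ring
        _ ≤ N * lam * (N * K * mu') := mul_le_mul_of_nonneg_left a1 (by positivity)
        _ = _ := by ring
    have h2 : c ^ 2 * lam' ≤ N ^ 2 * K * lam := le_of_mul_le_mul_right h1 hm'
    rw [hC1, div_mul_eq_mul_div, le_div_iff₀ (by positivity)]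
    linarith
  refine ⟨?_, ?_, ?_⟩
  · have : 0 ≤ (1 + C2) * lam' := by positivity
    linarith
  · have : 0 ≤ (1 + C2) * lam := by positivity
    linarith
  · intro i z hi hz
    obtain ⟨z', j, hz', hj⟩ := h.row
    have hzz : z' = z := Fin.ext (by rw [hz', hz])
    rw [hzz] at hj
    have s1 : ‖(U * M) i j‖ ≤ N * (K * mu') := by
      rw [← e1, Matrix.mul_apply]
      refine (norm_sum_le _ _).trans ?_
      have : ∀ k ∈ (Finset.univ : Finset (Fin N)), ‖M' i k * Wᴴ k j‖ ≤ K * mu' := by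
        intro k _
        rw [norm_mul]
        have h3 := ent_le4 hW.star k j
        have h4 := h'.low i k hi
        calc ‖M' i k‖ * ‖Wᴴ k j‖ ≤ (K * mu') * 1 :=
              mul_le_mul h4 h3 (norm_nonneg _) (by positivity)
          _ = _ := mul_one _
      refine (Finset.sum_le_sum this).trans ?_
      rw [Finset.sum_const, Finset.card_univ, Fintype.card_fin, nsmul_eq_mul]
    have s2 : (U * M) i j = U i z * M z j + ∑ l ∈ Finset.univ.erase z, U i l * M l j := by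
      rw [Matrix.mul_apply]
      exact (Finset.add_sum_erase Finset.univ (fun l => U i l * M l j) (Finset.mem_univ z)).symm
    have s3 : ‖∑ l ∈ Finset.univ.erase z, U i l * M l j‖ ≤ N * (K * mu) := by
      refine (norm_sum_le _ _).trans ?_
      have : ∀ l ∈ (Finset.univ : Finset (Fin N)).erase z, ‖U i l * M l j‖ ≤ K * mu := by
        intro l hl2
        have hl3 : (l : ℕ) ≠ 0 := by
          intro h5
          exact Finset.ne_of_mem_erase hl2 (Fin.ext (by rw [h5, hz]))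
        rw [norm_mul]
        calc ‖U i l‖ * ‖M l j‖ ≤ 1 * (K * mu) :=
              mul_le_mul (ent_le4 hU i l) (h.low l j hl3) (norm_nonneg _) zero_le_one
          _ = _ := one_mul _
      refine (Finset.sum_le_sum this).trans ?_
      rw [Finset.sum_const, nsmul_eq_mul]
      refine mul_le_mul_of_nonneg_right ?_ (by positivity)
      have h6 : ((Finset.univ : Finset (Fin N)).erase z).card ≤ N := by
        refine (Finset.card_erase_le).trans ?_
        rw [Finset.card_univ, Fintype.card_fin]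
      exact_mod_cast h6
    have s4 : ‖U i z‖ * ‖M z j‖ ≤ N * (K * mu') + N * (K * mu) := by
      rw [← norm_mul]
      have h7 : U i z * M z j = (U * M) i j - ∑ l ∈ Finset.univ.erase z, U i l * M l j := by
        rw [s2]; ring
      rw [h7]
      exact (norm_sub_le _ _).trans (add_le_add s1 s3)
    have s5 : ‖U i z‖ * (c * lam * mu) ≤ N * (K * mu') + N * (K * mu) :=
      (mul_le_mul_of_nonneg_left hj (norm_nonneg _)).trans s4
    have s6 : ‖U i z‖ * lam ≤ C2 := by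
      rw [hC2, le_div_iff₀ hc]
      have s7 : c * (‖U i z‖ * lam * c) * mu ≤ c * (N * K * (N * K / c + 1)) * mu := by
        calc c * (‖U i z‖ * lam * c) * mu = c * (‖U i z‖ * (c * lam * mu)) := by ring
          _ ≤ c * (N * (K * mu') + N * (K * mu)) := mul_le_mul_of_nonneg_left s5 hc.le
          _ = N * K * (c * mu') + N * K * c * mu := by ring
          _ ≤ N * K * (N * K * mu) + N * K * c * mu := by
            have := mul_le_mul_of_nonneg_left a2 (by positivity : (0 : ℝ) ≤ N * K)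
            linarith
          _ = _ := by
            field_simp
      have s8 := le_of_mul_le_mul_right s7 hm
      exact le_of_mul_le_mul_left s8 hc
    linarith

end Pool.Agent.Helper35.OB
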