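import Pool.Agent.Helper35.OB.AMG0

/-!
# Project OB, layer AM, block AM-G3: `g'⁻¹ g` is bounded

`U = (kL g')ᴴ (kL g)`, `s = s g`, `s' = s g'`.
PROOF. Bound all the entries of `diag(1 / s') U diag(s)`: `|U i j| s j / s' i = |U i j| s j (s' i.rev)` (`hs'i`). Let `0` and `N - 1` be the first and last indices, `lam = s 0`, `lam' = s' 0`; `1 ≤ lam`, `1 ≤ lam'` (`s 0 * s (N-1) = 1` and
`s` decreasing). `|U i j| ≤ 1`.
- `j ≠ 0`, `i ≠ N - 1`: `≤ K · K` (`hsK`, `hsK'` for `i.rev ≠ 0`).
- `j = 0`, `i = 0`: `s j / s' i = lam / lam' ≤ C`.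
- `j = 0`, `i ≠ 0, N - 1`: `|U i 0| lam · K ≤ C K` (`hU`).
- `j = N - 1` (any `i`): `s j = 1 / lam`, `s' i.rev ≤ lam'`: `≤ lam' / lam ≤ C`.
- `i = N - 1`, `1 ≤ j ≤ N - 2`: `|U (N-1) j| K lam'`. As `U` is real, unitary and `Uᵀ J U = J`, `U J = J U`, so `|U (N-1) j| = |U 0 (jj j)|`, `jj j ≠ 0`. Now `∑_{j ≠ 0} |U 0 j|² = 1 - |U 0 0|² = ∑_{i ≠ 0} |U i 0|² ≤ N C² / lam²`. So
`|U 0 (jj j)| ≤ √N C / lam`, total `≤ √N C K lam' / lam ≤ √N C² K`.
- `i = N - 1`, `j = 0`: `|U (N-1) 0| lam lam'`. If `lam² ≤ 2 N C²`, this is `≤ lam · C lam ≤ 2 N C³`. Otherwise `|U 0 0|² = 1 - ∑_{i ≠ 0} |U i 0|² ≥ 1/2`; the entry `(0, 0)` of `Uᵀ J U = J` is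
`2 U 0 0 U (N-1) 0 + 2 U 1 0 U (N-2) 0 + ∑_{2 ≤ i ≤ N-3} (U i 0)² = 0`, so `|U 0 0| |U (N-1) 0| ≤ ∑_{1 ≤ i ≤ N-2} |U i 0|² ≤ N C² / lam²` and `|U (N-1) 0| lam lam' ≤ 2 N C² lam' / lam ≤ 2 N C³`.
-/

set_option autoImplicit false
set_option linter.unusedSectionVars false

open Filter Topology Matrix

namespace Pool.Agent.Helper35.OB

open Pool.Agent.Helper84 Pool.Agent.Helper84.NI Pool.Agent.Helper90.RK Pool.Agent.Helper55.OB Pool.Agent.Helper96.RK
open Pool.Agent.Helper9.Lin (cjM)

private theorem jj_jj45 (N : ℕ) (i : Fin N) : jj N (jj N i) = i := by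
  unfold jj
  by_cases h : (i : ℕ) < 2 ∨ N ≤ (i : ℕ) + 2
  · rw [if_pos h]
    have hi := i.isLt
    have h2 : (i.rev : ℕ) = N - (i + 1) := Fin.val_rev i
    have h3 : (i.rev : ℕ) < 2 ∨ N ≤ (i.rev : ℕ) + 2 := by
      rw [h2]
      omega
    rw [if_pos h3, Fin.rev_rev]
  · rw [if_neg h, if_neg h]

private theorem comm45 {N : ℕ} {U : MN N} (hU : IsU U) (hc : cjM U = U) (hJ : Uᵀ * JJ N * U = JJ N)
    (i j : Fin N) : U (jj N i) (jj N j) = U i j := by
  have ht : Uᵀ = Uᴴ := by
    ext a b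
    rw [Matrix.transpose_apply, Matrix.conjTranspose_apply]
    have h := congrFun (congrFun hc b) a
    rw [Pool.Agent.Helper9.Lin.cjM_apply] at h
    exact h.symm
  have hU' : U * Uᴴ = 1 := mul_eq_one_comm.mp hU
  have h1 : JJ N * U = U * JJ N := by
    have h2 : U * (Uᵀ * JJ N * U) = U * JJ N := by rw [hJ]
    rw [ht, ← mul_assoc, ← mul_assoc, hU', one_mul] at h2
    exact h2
  have h3 : ∀ a b, U (jj N a) b = U a (jj N b) := by
    intro a b
    have h4 := congrFun (congrFun h1 a) b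
    have e1 : (JJ N * U) a b = U (jj N a) b := by
      rw [Matrix.mul_apply, Finset.sum_eq_single (jj N a)]
      · unfold JJ
        rw [Matrix.of_apply, if_pos rfl, one_mul]
      · intro k _ hk
        unfold JJ
        rw [Matrix.of_apply, if_neg hk, zero_mul]
      · intro h
        exact absurd (Finset.mem_univ _) h
    have e2 : (U * JJ N) a b = U a (jj N b) := by
      rw [Matrix.mul_apply, Finset.sum_eq_single (jj N b)]
      · unfold JJ
        rw [Matrix.of_apply, if_pos (jj_jj45 N b).symm, mul_one]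
      · intro k _ hk
        unfold JJ
        rw [Matrix.of_apply, if_neg, mul_zero]
        intro h
        exact hk (by rw [h, jj_jj45])
      · intro h
        exact absurd (Finset.mem_univ _) h
    rw [e1, e2] at h4
    exact h4
  rw [h3, jj_jj45]

private theorem col45 {N : ℕ} {U : MN N} (hU : IsU U) (j : Fin N) : ∑ i, ‖U i j‖ ^ 2 = 1 := by
  have h := congrFun (congrFun (show Uᴴ * U = 1 from hU) j) j
  rw [Matrix.mul_apply, Matrix.one_apply_eq] at h
  have e : ∀ i, Uᴴ j i * U i j = ((‖U i j‖ ^ 2 : ℝ) : ℂ) := by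
    intro i
    rw [Matrix.conjTranspose_apply, Complex.star_def, mul_comm, Complex.mul_conj, Complex.normSq_eq_norm_sq]
  rw [Finset.sum_congr rfl fun i _ => e i, ← Complex.ofReal_sum] at h
  exact_mod_cast h

private theorem row45 {N : ℕ} {U : MN N} (hU : IsU U) (i : Fin N) : ∑ j, ‖U i j‖ ^ 2 = 1 := by
  have hU' : U * Uᴴ = 1 := mul_eq_one_comm.mp hU
  have h := congrFun (congrFun hU' i) i
  rw [Matrix.mul_apply, Matrix.one_apply_eq] at h
  have e : ∀ j, U i j * Uᴴ j i = ((‖U i j‖ ^ 2 : ℝ) : ℂ) := by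
    intro j
    rw [Matrix.conjTranspose_apply, Complex.star_def, Complex.mul_conj, Complex.normSq_eq_norm_sq]
  rw [Finset.sum_congr rfl fun j _ => e j, ← Complex.ofReal_sum] at h
  exact_mod_cast h

/-- The isotropy of the first column. -/
private theorem iso45 {N : ℕ} (hN : 5 ≤ N) {U : MN N} (hJ : Uᵀ * JJ N * U = JJ N) (z : Fin N)
    (hz : (z : ℕ) = 0) : ‖U z z‖ * ‖U (jj N z) z‖ ≤ ∑ i ∈ Finset.univ.erase z, ‖U i z‖ ^ 2 := by
  have hjz : ((jj N z : Fin N) : ℕ) = N - 1 := by
    unfold jj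
    rw [if_pos (Or.inl (by omega)), Fin.val_rev, hz]
  have hne : jj N z ≠ z := fun h => by
    rw [h] at hjz
    omega
  have h := congrFun (congrFun hJ z) z
  have e0 : JJ N z z = 0 := by
    unfold JJ
    rw [Matrix.of_apply, if_neg fun h => hne h.symm]
  have e1 : (Uᵀ * JJ N * U) z z = ∑ i, U i z * U (jj N i) z := by
    rw [mul_assoc, Matrix.mul_apply]
    refine Finset.sum_congr rfl fun i _ => ?_
    rw [Matrix.transpose_apply, Matrix.mul_apply, Finset.sum_eq_single (jj N i)]
    · unfold JJ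
      rw [Matrix.of_apply, if_pos rfl, one_mul]
    · intro k _ hk
      unfold JJ
      rw [Matrix.of_apply, if_neg hk, zero_mul]
    · intro h
      exact absurd (Finset.mem_univ _) h
  rw [e0, e1, ← Finset.add_sum_erase _ _ (Finset.mem_univ z),
    ← Finset.add_sum_erase (Finset.univ.erase z) _ (Finset.mem_erase.2 ⟨hne, Finset.mem_univ (jj N z)⟩),
    jj_jj45] at h
  have h2 : U z z * U (jj N z) z * 2 = -∑ x ∈ (Finset.univ.erase z).erase (jj N z), U x z * U (jj N x) z := by
    linear_combination h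
  have h3 : ‖U z z‖ * ‖U (jj N z) z‖ * 2 ≤
      ∑ x ∈ (Finset.univ.erase z).erase (jj N z), ‖U x z‖ * ‖U (jj N x) z‖ := by
    have h4 := congrArg norm h2
    rw [norm_mul, norm_mul, norm_neg, Complex.norm_ofNat] at h4
    rw [h4]
    refine (norm_sum_le _ _).trans (le_of_eq ?_)
    exact Finset.sum_congr rfl fun x _ => norm_mul _ _
  have h5 : ∑ x ∈ (Finset.univ.erase z).erase (jj N z), ‖U x z‖ * ‖U (jj N x) z‖ ≤
      ∑ x ∈ (Finset.univ.erase z).erase (jj N z), (‖U x z‖ ^ 2 + ‖U (jj N x) z‖ ^ 2) / 2 := by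
    refine Finset.sum_le_sum fun x _ => ?_
    nlinarith [sq_nonneg (‖U x z‖ - ‖U (jj N x) z‖)]
  have h6 : ∑ x ∈ (Finset.univ.erase z).erase (jj N z), ‖U (jj N x) z‖ ^ 2 =
      ∑ x ∈ (Finset.univ.erase z).erase (jj N z), ‖U x z‖ ^ 2 := by
    refine Finset.sum_bij' (fun x _ => jj N x) (fun x _ => jj N x) ?_ ?_ ?_ ?_ ?_
    · intro x hx
      simp only [Finset.mem_erase, Finset.mem_univ, and_true, ne_eq] at hx ⊢
      refine ⟨fun h => hx.2 ?_, fun h => hx.1 ?_⟩
      · rw [← jj_jj45 N x, h, jj_jj45]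
      · rw [← h, jj_jj45]
    · intro x hx
      simp only [Finset.mem_erase, Finset.mem_univ, and_true, ne_eq] at hx ⊢
      refine ⟨fun h => hx.2 ?_, fun h => hx.1 ?_⟩
      · rw [← jj_jj45 N x, h, jj_jj45]
      · rw [← h, jj_jj45]
    · intro x _
      exact jj_jj45 N x
    · intro x _
      exact jj_jj45 N x
    · intro x _
      rfl
  have h7 : ∑ x ∈ (Finset.univ.erase z).erase (jj N z), ‖U x z‖ ^ 2 ≤ ∑ i ∈ Finset.univ.erase z, ‖U i z‖ ^ 2 :=
    Finset.sum_le_sum_of_subset_of_nonneg (Finset.erase_subset _ _) fun _ _ _ => sq_nonneg _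
  have h8 : ∑ x ∈ (Finset.univ.erase z).erase (jj N z), (‖U x z‖ ^ 2 + ‖U (jj N x) z‖ ^ 2) / 2 =
      ∑ x ∈ (Finset.univ.erase z).erase (jj N z), ‖U x z‖ ^ 2 := by
    rw [← Finset.sum_div, Finset.sum_add_distrib, h6]
    ring
  have h9 : (0 : ℝ) ≤ ∑ i ∈ Finset.univ.erase z, ‖U i z‖ ^ 2 := Finset.sum_nonneg fun _ _ => sq_nonneg _
  linarith

/-- **Block AM-G3.** -/
theorem left_bound {N : ℕ} (hN : 5 ≤ N) {K C : ℝ} (hK : 1 ≤ K) (hC : 1 ≤ C) : ∃ B : ℝ,
    ∀ (U : MN N) (s s' : Fin N → ℝ), IsU U → cjM U = U → Uᵀ * JJ N * U = JJ N →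
      (∀ i, 0 < s i) → (∀ i, 0 < s' i) → Antitone s → Antitone s' → (∀ i, s i * s i.rev = 1) → (∀ i, s' i * s' i.rev = 1) →
      (∀ i : Fin N, (i : ℕ) ≠ 0 → s i ≤ K) → (∀ i : Fin N, (i : ℕ) ≠ 0 → s' i ≤ K) →
      (∀ z : Fin N, (z : ℕ) = 0 → s z ≤ C * s' z ∧ s' z ≤ C * s z ∧ ∀ i : Fin N, (i : ℕ) ≠ 0 → ‖U i z‖ * s z ≤ C) →
      ns (diagonal (fun i => ((s' i)⁻¹ : ℂ)) * U * diagonal (fun i => (s i : ℂ))) ≤ B := by
  refine ⟨N * (N * (2 * N * C ^ 3 * K ^ 2) ^ 2), ?_⟩
  intro U s s' hU hc hJ hs hs' ha ha' hr hr' hsK hsK' h0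
  have hNr : (1 : ℝ) ≤ N := by
    have : (5 : ℝ) ≤ N := by exact_mod_cast hN
    linarith
  have hC0 : (0 : ℝ) < C := by linarith
  have hK0 : (0 : ℝ) < K := by linarith
  obtain ⟨z, hz⟩ : ∃ z : Fin N, (z : ℕ) = 0 := ⟨⟨0, by omega⟩, rfl⟩
  have hzr : ((z.rev : Fin N) : ℕ) = N - 1 := by rw [Fin.val_rev, hz]
  have hjz : jj N z = z.rev := by
    unfold jj
    rw [if_pos (Or.inl (by omega))]
  obtain ⟨hz1, hz2, hz3⟩ := h0 z hz
  have hzle : z ≤ z.rev := by
    rw [Fin.le_def, hz]
    exact Nat.zero_le _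
  have hl1 : 1 ≤ s z := by
    have h1 := hr z
    have h2 : s z.rev ≤ s z := ha hzle
    have h3 := hs z
    nlinarith
  have hl1' : 1 ≤ s' z := by
    have h1 := hr' z
    have h2 : s' z.rev ≤ s' z := ha' hzle
    have h3 := hs' z
    nlinarith
  -- every entry of `U` is at most one
  have hU1 : ∀ i j, ‖U i j‖ ≤ 1 := by
    intro i j
    have h1 : ‖U i j‖ ^ 2 ≤ ∑ i, ‖U i j‖ ^ 2 :=
      Finset.single_le_sum (f := fun i => ‖U i j‖ ^ 2) (fun _ _ => sq_nonneg _) (Finset.mem_univ i)
    rw [col45 hU j] at h1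
    nlinarith [norm_nonneg (U i j)]
  obtain ⟨T, hT⟩ : ∃ T, T = ∑ i ∈ Finset.univ.erase z, ‖U i z‖ ^ 2 := ⟨_, rfl⟩
  have hT0 : 0 ≤ T := by
    rw [hT]
    exact Finset.sum_nonneg fun _ _ => sq_nonneg _
  have hcol : ‖U z z‖ ^ 2 + T = 1 := by
    rw [hT, Finset.add_sum_erase _ (fun i => ‖U i z‖ ^ 2) (Finset.mem_univ z)]
    exact col45 hU z
  have hrow : ‖U z z‖ ^ 2 + ∑ j ∈ Finset.univ.erase z, ‖U z j‖ ^ 2 = 1 := by
    rw [Finset.add_sum_erase _ (fun j => ‖U z j‖ ^ 2) (Finset.mem_univ z)]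
    exact row45 hU z
  have hne0 : ∀ i : Fin N, i ≠ z → (i : ℕ) ≠ 0 := fun i hi h => hi (Fin.ext (by rw [h, hz]))
  have hTl : T * s z ^ 2 ≤ N * C ^ 2 := by
    rw [hT, Finset.sum_mul]
    calc ∑ i ∈ Finset.univ.erase z, ‖U i z‖ ^ 2 * s z ^ 2
        ≤ ∑ i ∈ Finset.univ.erase z, C ^ 2 := by
          refine Finset.sum_le_sum fun i hi => ?_
          have h1 := hz3 i (hne0 i (Finset.mem_erase.1 hi).1)
          have h2 : 0 ≤ ‖U i z‖ * s z := mul_nonneg (norm_nonneg _) (hs z).le
          calc ‖U i z‖ ^ 2 * s z ^ 2 = (‖U i z‖ * s z) ^ 2 := by ring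
            _ ≤ C ^ 2 := by gcongr
      _ ≤ ∑ i : Fin N, C ^ 2 :=
          Finset.sum_le_sum_of_subset_of_nonneg (Finset.erase_subset _ _) fun _ _ _ => sq_nonneg _
      _ = N * C ^ 2 := by
          rw [Finset.sum_const, Finset.card_univ, Fintype.card_fin, nsmul_eq_mul]
  have hB0 : ∀ x : ℝ, x ≤ 2 * N * C ^ 3 → x ≤ 2 * N * C ^ 3 * K ^ 2 := by
    intro x hx
    refine hx.trans ?_
    have h1 : (1 : ℝ) ≤ K ^ 2 := one_le_pow₀ hK
    exact le_mul_of_one_le_right (by positivity) h1
  have hC3 : C ≤ C ^ 3 := by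
    calc C = C ^ 1 := (pow_one C).symm
      _ ≤ C ^ 3 := pow_le_pow_right₀ hC (by norm_num)
  have hC23 : C ^ 2 ≤ C ^ 3 := pow_le_pow_right₀ hC (by norm_num)
  have hC1 : (1 : ℝ) ≤ C ^ 3 := one_le_pow₀ hC
  have hK12 : K ≤ K ^ 2 := by nlinarith
  -- the bound of an entry
  have hent : ∀ i j : Fin N, s' i.rev * ‖U i j‖ * s j ≤ 2 * N * C ^ 3 * K ^ 2 := by
    intro i j
    have hu0 := norm_nonneg (U i j)
    by_cases hi : i = z.rev
    · subst hi
      rw [Fin.rev_rev]
      by_cases hj : j = z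
      · subst hj
        refine hB0 _ ?_
        by_cases hbig : s j ^ 2 ≤ 2 * N * C ^ 2
        · calc s' j * ‖U j.rev j‖ * s j ≤ (C * s j) * 1 * s j := by
                have h1 := hU1 j.rev j
                have h2 := hs j
                have h3 := hs' j
                gcongr
            _ = C * s j ^ 2 := by ring
            _ ≤ C * (2 * N * C ^ 2) := by gcongr
            _ = 2 * N * C ^ 3 := by ring
        · have h1 : T ≤ 1 / 2 := by
            have h2 : 2 * N * C ^ 2 < s j ^ 2 := not_le.1 hbig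
            have h3 : 0 < s j ^ 2 := by
              have := hs j
              positivity
            by_contra hcon
            have h4 : 1 / 2 < T := not_le.1 hcon
            nlinarith
          have h2 : 1 / 2 ≤ ‖U j j‖ := by
            have h3 : 1 / 2 ≤ ‖U j j‖ ^ 2 := by linarith
            nlinarith [norm_nonneg (U j j), hU1 j j]
          have h3 := iso45 hN hJ j hz
          rw [hjz, ← hT] at h3
          have h4 : ‖U j.rev j‖ ≤ 2 * T := by
            nlinarith [norm_nonneg (U j.rev j)]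
          calc s' j * ‖U j.rev j‖ * s j ≤ (C * s j) * (2 * T) * s j := by
                have h5 := hs j
                have h6 := hs' j
                gcongr
            _ = 2 * C * (T * s j ^ 2) := by ring
            _ ≤ 2 * C * (N * C ^ 2) := by gcongr
            _ = 2 * N * C ^ 3 := by ring
      · by_cases hj2 : j = z.rev
        · subst hj2
          refine hB0 _ ?_
          have h1 : s z.rev * s z = 1 := by
            rw [mul_comm]
            exact hr z
          calc s' z * ‖U z.rev z.rev‖ * s z.rev ≤ (C * s z) * 1 * s z.rev := by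
                have h2 := hs z.rev
                have h3 := hU1 z.rev z.rev
                have h4 := hs z
                gcongr
            _ = C * (s z.rev * s z) := by ring
            _ = C := by rw [h1, mul_one]
            _ ≤ 1 * C ^ 3 := by rw [one_mul]; exact hC3
            _ ≤ (2 * N) * C ^ 3 := by
                gcongr
                linarith
        · -- the other entries of the last row
          have h1 : ‖U z.rev j‖ ^ 2 ≤ T := by
            have h2 : U z.rev j = U z (jj N j) := by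
              have h3 := comm45 hU hc hJ z (jj N j)
              rw [jj_jj45, hjz] at h3
              exact h3
            have h3 : jj N j ≠ z := fun h => hj2 (by rw [← jj_jj45 N j, h, hjz])
            have h4 : ‖U z (jj N j)‖ ^ 2 ≤ ∑ j ∈ Finset.univ.erase z, ‖U z j‖ ^ 2 :=
              Finset.single_le_sum (f := fun j => ‖U z j‖ ^ 2) (fun _ _ => sq_nonneg _)
                (Finset.mem_erase.2 ⟨h3, Finset.mem_univ _⟩)
            rw [h2]
            linarith
          have h2 : ‖U z.rev j‖ * s z ≤ N * C := by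
            have h3 : (‖U z.rev j‖ * s z) ^ 2 ≤ (N * C) ^ 2 := by
              calc (‖U z.rev j‖ * s z) ^ 2 = ‖U z.rev j‖ ^ 2 * s z ^ 2 := by ring
                _ ≤ T * s z ^ 2 := by gcongr
                _ ≤ N * C ^ 2 := hTl
                _ ≤ (N * N) * C ^ 2 := by
                    gcongr
                    exact le_mul_of_one_le_left (by linarith) hNr
                _ = (N * C) ^ 2 := by ring
            exact le_of_sq_le_sq h3 (by positivity)
          have h3 := hsK j (hne0 j hj)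
          calc s' z * ‖U z.rev j‖ * s j ≤ (C * s z) * ‖U z.rev j‖ * K := by
                have h4 := hs z
                have h5 := hs j
                gcongr
            _ = C * K * (‖U z.rev j‖ * s z) := by ring
            _ ≤ C * K * (N * C) := by gcongr
            _ = N * C ^ 2 * K := by ring
            _ ≤ (2 * N) * C ^ 3 * K ^ 2 := by
                gcongr
                linarith
    · have hir : ((i.rev : Fin N) : ℕ) ≠ 0 := by
        intro h
        apply hi
        have h1 : i.rev = z := Fin.ext (by rw [h, hz])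
        rw [← h1, Fin.rev_rev]
      have h1 := hsK' i.rev hir
      by_cases hj : j = z
      · subst hj
        by_cases hi2 : i = j
        · subst hi2
          refine hB0 _ ?_
          have h2 : s' i.rev * s' i = 1 := by
            rw [mul_comm]
            exact hr' i
          calc s' i.rev * ‖U i i‖ * s i ≤ s' i.rev * 1 * (C * s' i) := by
                have h3 := hs' i.rev
                have h4 := hs i
                have h5 := hU1 i i
                gcongr
            _ = C * (s' i.rev * s' i) := by ring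
            _ = C := by rw [h2, mul_one]
            _ ≤ 1 * C ^ 3 := by rw [one_mul]; exact hC3
            _ ≤ (2 * N) * C ^ 3 := by
                gcongr
                linarith
        · have h2 := hz3 i (hne0 i hi2)
          calc s' i.rev * ‖U i j‖ * s j = s' i.rev * (‖U i j‖ * s j) := by ring
            _ ≤ K * C := by
                have h3 := hs j
                gcongr
            _ ≤ (1 * C ^ 3) * K ^ 2 := by
                rw [mul_comm K C, one_mul]
                gcongr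
            _ ≤ (2 * N) * C ^ 3 * K ^ 2 := by
                gcongr
                linarith
      · have h2 := hsK j (hne0 j hj)
        calc s' i.rev * ‖U i j‖ * s j ≤ K * 1 * K := by
              have h3 := hs j
              have h4 := hU1 i j
              gcongr
          _ = 1 * K ^ 2 := by ring
          _ ≤ 2 * N * C ^ 3 * K ^ 2 := by
              gcongr
              nlinarith
  have hinv : ∀ i : Fin N, (s' i)⁻¹ = s' i.rev := by
    intro i
    exact inv_eq_of_mul_eq_one_right (hr' i)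
  unfold ns
  calc ∑ i, ∑ j, ‖(diagonal (fun i => ((s' i)⁻¹ : ℂ)) * U * diagonal (fun i => (s i : ℂ))) i j‖ ^ 2
      ≤ ∑ i : Fin N, ∑ j : Fin N, (2 * N * C ^ 3 * K ^ 2) ^ 2 := by
        refine Finset.sum_le_sum fun i _ => Finset.sum_le_sum fun j _ => ?_
        have e : ‖(diagonal (fun i => ((s' i)⁻¹ : ℂ)) * U * diagonal (fun i => (s i : ℂ))) i j‖ =
            s' i.rev * ‖U i j‖ * s j := by
          rw [mul_diagonal, diagonal_mul, norm_mul, norm_mul, norm_inv, Complex.norm_real, Complex.norm_real,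
            Real.norm_of_nonneg (hs' i).le, Real.norm_of_nonneg (hs j).le, hinv]
        rw [e]
        have h1 : 0 ≤ s' i.rev * ‖U i j‖ * s j :=
          mul_nonneg (mul_nonneg (hs' _).le (norm_nonneg _)) (hs j).le
        exact pow_le_pow_left₀ h1 (hent i j) 2
    _ = N * (N * (2 * N * C ^ 3 * K ^ 2) ^ 2) := by
        rw [Finset.sum_const, Finset.sum_const, Finset.card_univ, Fintype.card_fin, nsmul_eq_mul, nsmul_eq_mul]

end Pool.Agent.Helper35.OB
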