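import Pool.Agent.Helper35.OB.AMG1
import Pool.Agent.Helper35.OB.AMG2
import Pool.Agent.Helper35.OB.AMG3

/-!
# Project OB, layer AM, block AM-G4: multiplicity of `(g, h) ↦ g h⁻¹`

`mult_main`: for `A`, `B` not incident, every `k` has a bounded number of decompositions `k = g h⁻¹`, `g ∈ A` in the region `W n` of the first stratum, `h ∈ B` in the region `W n'` of the second.
-/

set_option autoImplicit false
set_option linter.unusedSectionVars false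

open Filter Topology Matrix

namespace Pool.Agent.Helper35.OB

open Pool.Agent.Helper84 Pool.Agent.Helper84.NI Pool.Agent.Helper90.RK Pool.Agent.Helper55.OB Pool.Agent.Helper96.RK
open Pool.Agent.Helper9.Lin (cjM cjM_mul)
open Pool.Agent.Helper84.OB (fl NonInc)

variable {G : Type} [Group G] {N : ℕ} {P : PH G N}

/-- The inverse of the diagonal matrix of singular values. -/
theorem diag_inv (S : Sv P) (g : G) :
    diagonal (fun i : Fin N => (S.s g i : ℂ)) * diagonal (fun i : Fin N => ((S.s g i)⁻¹ : ℂ)) = 1 := by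
  rw [diagonal_mul_diagonal]
  have h : (fun i : Fin N => (S.s g i : ℂ) * (S.s g i : ℂ)⁻¹) = fun _ => 1 := by
    funext i
    exact mul_inv_cancel₀ (by exact_mod_cast (S.pos g i).ne')
  rw [h, diagonal_one]

/-- The inverse of the matrix of `g`. -/
theorem inv_iota (S : Sv P) (g : G) : (P.ι g)⁻¹ = S.kR g * diagonal (fun i : Fin N => ((S.s g i)⁻¹ : ℂ)) * (S.kL g)ᴴ := by
  refine Matrix.inv_eq_right_inv ?_
  have h1 : (S.kR g)ᴴ * S.kR g = 1 := S.uR g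
  calc P.ι g * (S.kR g * diagonal (fun i : Fin N => ((S.s g i)⁻¹ : ℂ)) * (S.kL g)ᴴ)
      = S.kL g * diagonal (fun i : Fin N => (S.s g i : ℂ)) * ((S.kR g)ᴴ * S.kR g) *
          diagonal (fun i : Fin N => ((S.s g i)⁻¹ : ℂ)) * (S.kL g)ᴴ := by
        conv_lhs => rw [S.spec g]
        simp only [Matrix.mul_assoc]
    _ = S.kL g * (diagonal (fun i : Fin N => (S.s g i : ℂ)) * diagonal (fun i : Fin N => ((S.s g i)⁻¹ : ℂ))) *
          (S.kL g)ᴴ := by rw [h1, Matrix.mul_one, Matrix.mul_assoc (S.kL g)]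
    _ = 1 := by rw [diag_inv, Matrix.mul_one, (S.uL g).mul_star]

/-- The matrix of `g h⁻¹`. -/
theorem iota_Mgh (S : Sv P) (g h : G) : ∃ c : ℂ, ‖c‖ = 1 ∧ P.ι (g * h⁻¹) = c • (S.kL g * Mgh S g h * (S.kL h)ᴴ) := by
  obtain ⟨c, hc, h1⟩ := P.mul' g h⁻¹
  obtain ⟨d, hd, h2⟩ := iota_inv P h
  refine ⟨c * d, by rw [norm_mul, hc, hd, one_mul], ?_⟩
  rw [h1, h2, Matrix.mul_smul, smul_smul, inv_iota S h]
  congr 1
  unfold Mgh
  conv_lhs => rw [S.spec g]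
  simp only [Matrix.mul_assoc]

/-- Two decompositions of the same element. -/
theorem Mgh_rel (S : Sv P) {g h g' h' : G} (e : g * h⁻¹ = g' * h'⁻¹) : ∃ c : ℂ, ‖c‖ = 1 ∧
    Mgh S g' h' = (c • ((S.kL g')ᴴ * S.kL g)) * Mgh S g h * ((S.kL h)ᴴ * S.kL h') := by
  obtain ⟨c, hc, h1⟩ := iota_Mgh S g h
  obtain ⟨d, hd, h2⟩ := iota_Mgh S g' h'
  have hd0 := ne_zero_of_norm_one hd
  refine ⟨d⁻¹ * c, by rw [norm_mul, norm_inv, hd, hc, inv_one, one_mul], ?_⟩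
  have h3 : d • (S.kL g' * Mgh S g' h' * (S.kL h')ᴴ) = c • (S.kL g * Mgh S g h * (S.kL h)ᴴ) := by
    rw [← h1, ← h2, e]
  have h4 : S.kL g' * Mgh S g' h' * (S.kL h')ᴴ = (d⁻¹ * c) • (S.kL g * Mgh S g h * (S.kL h)ᴴ) := by
    rw [mul_smul, ← h3, smul_smul, inv_mul_cancel₀ hd0, one_smul]
  have h5 : (S.kL g')ᴴ * S.kL g' = 1 := S.uL g'
  have h6 : (S.kL h')ᴴ * S.kL h' = 1 := S.uL h'
  calc Mgh S g' h' = ((S.kL g')ᴴ * S.kL g') * Mgh S g' h' * ((S.kL h')ᴴ * S.kL h') := by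
        rw [h5, h6, Matrix.one_mul, Matrix.mul_one]
    _ = (S.kL g')ᴴ * (S.kL g' * Mgh S g' h' * (S.kL h')ᴴ) * S.kL h' := by simp only [Matrix.mul_assoc]
    _ = _ := by
        rw [h4]
        simp only [Matrix.mul_assoc, Matrix.mul_smul, Matrix.smul_mul]

/-- The singular values on the first stratum. -/
theorem s_le_exp {S : Sv P} (hS : SO2 P S) {n : ℕ} {g : G} (hg : g ∈ (R1 S).W n) (i : Fin N) (hi : (i : ℕ) ≠ 0) :
    S.s g i ≤ Real.exp n := by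
  have hN := hS.hN
  have h2 : S.s g ⟨2, by omega⟩ = 1 := hS.mid g ⟨2, by omega⟩ (le_refl 2) (by simpa using hN)
  have h0 : (1 : ℝ) ≤ Real.exp n := Real.one_le_exp (Nat.cast_nonneg n)
  by_cases h1 : (i : ℕ) = 1
  · have h3 : g ∈ WC S (K1 N) n := hg
    have h4 : (⟨1, by omega⟩ : Fin N) ∈ K1 N := by
      unfold K1
      rw [Finset.mem_filter]
      refine ⟨Finset.mem_univ _, ?_, ?_⟩
      · simp
      · simp only
        omega
    have h5 := h3 _ h4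
    have h6 : gp S g ⟨1, by omega⟩ ≤ Real.exp n := by
      rw [gp_eq_exp]
      exact Real.exp_le_exp.2 h5
    unfold gp at h6
    have h7 : ((⟨1, by omega⟩ : Fin N) : ℕ) + 1 < N := by
      simp only
      omega
    rw [dif_pos h7] at h6
    have h8 : S.s g ⟨((⟨1, by omega⟩ : Fin N) : ℕ) + 1, h7⟩ = 1 := h2
    rw [h8, div_one] at h6
    have h9 : i = ⟨1, by omega⟩ := Fin.ext h1
    rw [h9]
    exact h6
  · have h3 : (⟨2, by omega⟩ : Fin N) ≤ i := by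
      rw [Fin.le_def]
      simp only
      omega
    exact ((S.anti g h3).trans h2.le).trans h0

/-- **Block AM-G4.** -/
theorem mult_main {S : Sv P} (hS : SO2 P S) {A B : Set G} (hAB : NonInc S A B) (n n' : ℕ) :
    ∃ M, Mult (A ∩ (R1 S).W n) (B ∩ (R2 S).W n') M := by
  classical
  obtain ⟨δ, hδ, hAB'⟩ := hAB
  obtain ⟨c, K, hc, hK, hsh⟩ := sh_main hS hδ n n'
  obtain ⟨C, hC, hcmp⟩ := sh_compare hS.hN hc hK
  obtain ⟨B0, hB0⟩ := left_bound (N := N) hS.hN (K := Real.exp n) (Real.one_le_exp (Nat.cast_nonneg n)) hC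
  have hN := hS.hN
  obtain ⟨z, hz⟩ : ∃ z : Fin N, (z : ℕ) = 0 := ⟨⟨0, by omega⟩, rfl⟩
  refine ⟨(P.fin B0).toFinset.card, fun F hF hFF => ?_⟩
  rcases F.eq_empty_or_nonempty with rfl | ⟨p', hp'⟩
  · simp
  refine Finset.card_le_card_of_injOn (fun p => p'.1⁻¹ * p.1) (fun p hp => ?_) (fun p hp q hq hpq => ?_)
  · rw [Finset.mem_coe, Set.Finite.mem_toFinset]
    change ns (P.ι (p'.1⁻¹ * p.1)) ≤ B0
    have hp := Finset.mem_coe.1 hp
    obtain ⟨⟨hpA, hpW⟩, hpB, hpW'⟩ := hF p hp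
    obtain ⟨⟨hpA', hpV⟩, hpB', hpV'⟩ := hF p' hp'
    obtain ⟨d, hd, hrel⟩ := Mgh_rel S (hFF p hp p' hp')
    have hU : IsU ((S.kL p'.1)ᴴ * S.kL p.1) := (S.uL p'.1).star.mul (S.uL p.1)
    obtain ⟨hl1, hl2, hl3⟩ := hcmp _ _ _ _ _ _ _ _ (S.pos p.1 z) (S.pos p.2 z) (S.pos p'.1 z) (S.pos p'.2 z)
      (hsh p.1 hpW p.2 hpW' (hAB' _ hpA _ hpB) z hz) (hsh p'.1 hpV p'.2 hpV' (hAB' _ hpA' _ hpB') z hz)
      (hU.smul hd) ((S.uL p.2).star.mul (S.uL p'.2)) hrel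
    have hcj : cjM ((S.kL p'.1)ᴴ * S.kL p.1) = (S.kL p'.1)ᴴ * S.kL p.1 := by
      rw [cjM_mul, hS.realL p.1]
      congr 1
      ext i j
      have h1 := congrFun (congrFun (hS.realL p'.1) j) i
      rw [Pool.Agent.Helper9.Lin.cjM_apply] at h1 ⊢
      rw [conjTranspose_apply, RCLike.star_def, h1, h1]
    have hT : ∀ γ, (S.kL γ)ᴴ = (S.kL γ)ᵀ := by
      intro γ
      ext i j
      exact congrFun (congrFun (hS.realL γ) j) i
    have hform : ((S.kL p'.1)ᴴ * S.kL p.1)ᵀ * JJ N * ((S.kL p'.1)ᴴ * S.kL p.1) = JJ N := by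
      have T2 : S.kL p'.1 * (S.kL p'.1)ᵀ = 1 := by
        rw [← hT]
        exact (S.uL p'.1).mul_star
      have h1 : S.kL p'.1 * JJ N * (S.kL p'.1)ᵀ = JJ N := by
        calc S.kL p'.1 * JJ N * (S.kL p'.1)ᵀ =
              S.kL p'.1 * ((S.kL p'.1)ᵀ * JJ N * S.kL p'.1) * (S.kL p'.1)ᵀ := by rw [hS.formL p'.1]
          _ = (S.kL p'.1 * (S.kL p'.1)ᵀ) * JJ N * (S.kL p'.1 * (S.kL p'.1)ᵀ) := by simp only [Matrix.mul_assoc]
          _ = JJ N := by rw [T2, Matrix.one_mul, Matrix.mul_one]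
      rw [hT p'.1, transpose_mul, transpose_transpose]
      calc (S.kL p.1)ᵀ * S.kL p'.1 * JJ N * ((S.kL p'.1)ᵀ * S.kL p.1) =
            (S.kL p.1)ᵀ * (S.kL p'.1 * JJ N * (S.kL p'.1)ᵀ) * S.kL p.1 := by simp only [Matrix.mul_assoc]
        _ = JJ N := by rw [h1, hS.formL p.1]
    have hb := hB0 ((S.kL p'.1)ᴴ * S.kL p.1) (S.s p.1) (S.s p'.1) hU hcj hform (S.pos p.1) (S.pos p'.1) (S.anti p.1)
      (S.anti p'.1) (hS.inv p.1) (hS.inv p'.1) (s_le_exp hS hpW) (s_le_exp hS hpV) (fun w hw => by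
        have e : w = z := Fin.ext (hw.trans hz.symm)
        rw [e]
        refine ⟨hl1, hl2, fun i hi => ?_⟩
        have h1 := hl3 i z hi hz
        rwa [Matrix.smul_apply, norm_smul, hd, one_mul] at h1)
    -- the matrix of `g'⁻¹ g`
    obtain ⟨e1, he1, h1⟩ := P.mul' p'.1⁻¹ p.1
    obtain ⟨e2, he2, h2⟩ := iota_inv P p'.1
    have h3 : P.ι (p'.1⁻¹ * p.1) = (e1 * e2) • (S.kR p'.1 * (diagonal (fun i : Fin N => ((S.s p'.1 i)⁻¹ : ℂ)) *
        ((S.kL p'.1)ᴴ * S.kL p.1) * diagonal (fun i : Fin N => (S.s p.1 i : ℂ))) * (S.kR p.1)ᴴ) := by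
      rw [h1, h2, Matrix.smul_mul, smul_smul, inv_iota S p'.1]
      congr 1
      conv_lhs => rw [S.spec p.1]
      simp only [Matrix.mul_assoc]
    rw [h3, ns_smul, norm_mul, he1, he2, one_mul, one_pow, one_mul, ns_mul_unitary (S.uR p.1).star,
      ns_unitary_mul (S.uR p'.1)]
    exact hb
  · have h1 : p.1 = q.1 := mul_left_cancel hpq
    have h2 := hFF p (Finset.mem_coe.1 hp) q (Finset.mem_coe.1 hq)
    rw [h1] at h2
    exact Prod.ext h1 (inv_injective (mul_left_cancel h2))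

end Pool.Agent.Helper35.OB
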