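import Pool.Agent.Helper35.OB.AM4
import Pool.Agent.Helper35.OB.AMG4

/-!
# Project OB (MP_0f6f3f_an), layer AM (amplification): final statement
-/

set_option autoImplicit false
set_option linter.unusedSectionVars false

open MeasureTheory Filter Topology Matrix
open scoped ComplexConjugate

namespace Pool.Agent.Helper35.OB

open Pool.Agent.Helper84 Pool.Agent.Helper84.GN Pool.Agent.Helper84.GN.S3 Pool.Agent.Helper84.GN.S3.X
open Pool.Agent.Helper84.NI Pool.Agent.Helper84.GVN Pool.Agent.Helper90.RK Pool.Agent.Helper78.BM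
open Pool.Agent.Helper96.RK Pool.Agent.Helper66.FR Pool.Agent.Helper84.FR Pool.Agent.Helper55.FR
open Pool.Agent.Helper55.OB
open Pool.Agent.Helper84.OB (fl NonInc)

variable {G1 X G Λ : Type} [Group G1] [TopologicalSpace G1] [IsTopologicalGroup G1] [MeasurableSpace X] [MulAction G1 X]
  [MeasurableConstSMul G1 X] [Group G] [Group Λ] [Countable Λ] {μ : Measure X} [SMulInvariantMeasure G1 X μ]
  [IsProbabilityMeasure μ] {a : Cocy G1 X Λ} {E : Emb Λ G} {b b' : ℕ → G1} {N : ℕ} {P : PH G N}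

/-- A set which is not relatively compact contains large finite sets whose elements are far apart. -/
theorem far_of (h4 : Tendsto (fun g : G1 => μ {x | a.a g x = 1}) (cocompact G1) (𝓝 0)) {D : Set G1}
    (hD : ¬ ∃ K : Set G1, IsCompact K ∧ D ⊆ K) : Far μ a D := by
  classical
  intro K ε hε
  have h5 : ∀ᶠ g : G1 in cocompact G1, μ {x | a.a g x = 1} < ENNReal.ofReal ε :=
    h4.eventually (gt_mem_nhds (by simpa using hε))
  obtain ⟨K0, hK0, hK1⟩ := mem_cocompact.1 h5
  have hsm : ∀ g : G1, g ∉ K0 → (μ {x | a.a g x = 1}).toReal ≤ ε := by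
    intro g hg
    have h6 : μ {x | a.a g x = 1} < ENNReal.ofReal ε := hK1 hg
    have h7 := ENNReal.toReal_mono ENNReal.ofReal_ne_top h6.le
    rwa [ENNReal.toReal_ofReal hε.le] at h7
  induction K with
  | zero => exact ⟨∅, by simp, by simp, by simp⟩
  | succ K ih =>
    obtain ⟨Q, hQK, hQD, hQ⟩ := ih
    have hcomp : IsCompact ((Q : Set G1) ∪ ⋃ q' ∈ Q, (((fun g : G1 => q' * g⁻¹) '' K0) ∪ ((fun g : G1 => q' * g) '' K0))) := by
      refine Q.finite_toSet.isCompact.union (Q.isCompact_biUnion fun q' _ => ?_)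
      exact (hK0.image (by fun_prop)).union (hK0.image (by fun_prop))
    obtain ⟨q, hqD, hq⟩ : ∃ q ∈ D, q ∉ ((Q : Set G1) ∪ ⋃ q' ∈ Q, (((fun g : G1 => q' * g⁻¹) '' K0) ∪
        ((fun g : G1 => q' * g) '' K0))) := by
      by_contra hcon
      push Not at hcon
      exact hD ⟨_, hcomp, hcon⟩
    have hqQ : q ∉ Q := fun h => hq (Or.inl h)
    have h1 : ∀ q' ∈ Q, q⁻¹ * q' ∉ K0 := by
      intro q' hq' h
      refine hq (Or.inr (Set.mem_biUnion hq' (Or.inl ⟨q⁻¹ * q', h, ?_⟩)))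
      change q' * (q⁻¹ * q')⁻¹ = q
      group
    have h2 : ∀ q' ∈ Q, q'⁻¹ * q ∉ K0 := by
      intro q' hq' h
      refine hq (Or.inr (Set.mem_biUnion hq' (Or.inr ⟨q'⁻¹ * q, h, ?_⟩)))
      change q' * (q'⁻¹ * q) = q
      group
    refine ⟨insert q Q, ?_, ?_, ?_⟩
    · rw [Finset.card_insert_of_notMem hqQ]
      omega
    · intro r hr
      rcases Finset.mem_insert.1 hr with rfl | hr
      · exact hqD
      · exact hQD r hr
    · intro r hr r' hr' hne
      rcases Finset.mem_insert.1 hr with e | hr1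
      · rcases Finset.mem_insert.1 hr' with e' | hr1'
        · exact absurd (e.trans e'.symm) hne
        · rw [e]
          exact hsm _ (h1 r' hr1')
      · rcases Finset.mem_insert.1 hr' with e' | hr1'
        · rw [e']
          exact hsm _ (h2 r hr1)
        · exact hQ r hr1 r' hr1' hne

omit [TopologicalSpace G1] [IsTopologicalGroup G1] [MeasurableSpace X] [MulAction G1 X] [MeasurableConstSMul G1 X] in
/-- Functionals which vanish on the vectors carried by the neighbourhoods of infinity. -/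
theorem XUa_zero {X : Type} [MeasurableSpace X] {μ : Measure X} {R : Reg G} (T : UE μ (L2 G) →L[ℂ] ℂ)
    (h : ∀ y : UE μ (L2 G), (∃ n, UE.map μ (ind ℂ (R.W n)) y = y) → T y = 0) {y : UE μ (L2 G)} (hy : y ∈ XUa μ R) : T y = 0 := by
  have h1 : XUa μ R ≤ T.toLinearMap.ker := by
    unfold XUa
    refine Submodule.topologicalClosure_minimal _ ?_ ?_
    · rw [Submodule.span_le]
      rintro c ⟨n, hn⟩
      exact h c ⟨n, hn _ (le_principal_iff.1 (R.le n))⟩
    · exact ContinuousLinearMap.isClosed_ker T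
  exact h1 hy

theorem iUX_symm {R : Reg G} (A : Set G) (x y : XUa μ R) : inner ℂ x (iUX R A y) = (inner ℂ (iUX R A x) y : ℂ) := by
  change inner ℂ (x : UE μ (L2 G)) (UE.map μ (ind ℂ A) (y : UE μ (L2 G))) =
    inner ℂ (UE.map μ (ind ℂ A) (x : UE μ (L2 G))) (y : UE μ (L2 G))
  rw [xinner_ind]

/-- The adjoint of the boundary operator. -/
theorem adj_Tb {R : Reg G} (x : XUa μ R) : ContinuousLinearMap.adjoint (Tb μ a E R b) x =
    ContinuousLinearMap.adjoint (KK μ a E b) (x : UE μ (L2 G)) := by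
  refine ext_inner_right ℂ fun η => ?_
  rw [ContinuousLinearMap.adjoint_inner_left, ContinuousLinearMap.adjoint_inner_left, Tb_eq, inner_XPpr]

/-- The amplification on the regions. -/
theorem am_zero (h3 : Tendsto (fun g : G1 => μ {x | a.a g x ≠ 1}) (𝓝 1) (𝓝 0)) (hfar : Far μ a (Ctr b ∩ Ctr b'))
    {s s' : Set G} {M : ℕ} (hM : Mult s s' M) (y x : UE μ (L2 G)) :
    inner ℂ (ContinuousLinearMap.adjoint (KK μ a E b) (UE.map μ (ind ℂ s) y))
      (ContinuousLinearMap.adjoint (KK μ a E b') (UE.map μ (ind ℂ s') x)) = (0 : ℂ) := by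
  refine pos_zero (KK μ a E b) (KK μ a E b') (UE.map μ (ind ℂ s)) (UE.map μ (ind ℂ s')) (fun x y => xinner_ind s x y)
    (fun x => ?_) (fun x y => xinner_ind s' x y) (fun x => ?_) (fun φ ψ => ?_) y x
  · rw [xind_ind, Set.inter_self]
  · rw [xind_ind, Set.inter_self]
  · exact inner_Th_zero h3 hfar hM φ ψ

/-- **(AM), general form**: `1_A T_b T_b'* 1_B = 0` if the multiplicities are bounded on the regions. -/
theorem am_gen {R R' : Reg G} (h3 : Tendsto (fun g : G1 => μ {x | a.a g x ≠ 1}) (𝓝 1) (𝓝 0))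
    (hfar : Far μ a (Ctr b ∩ Ctr b')) {A B : Set G} (hM : ∀ n n', ∃ M, Mult (A ∩ R.W n) (B ∩ R'.W n') M) (x : XUa μ R') :
    iUX R A (Tb μ a E R b (ContinuousLinearMap.adjoint (Tb μ a E R' b') (iUX R' B x))) = 0 := by
  refine ext_inner_left ℂ fun y => ?_
  rw [iUX_symm, ← ContinuousLinearMap.adjoint_inner_left, adj_Tb, adj_Tb, inner_zero_right]
  change inner ℂ (ContinuousLinearMap.adjoint (KK μ a E b) (UE.map μ (ind ℂ A) (y : UE μ (L2 G))))
    (ContinuousLinearMap.adjoint (KK μ a E b') (UE.map μ (ind ℂ B) (x : UE μ (L2 G)))) = 0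
  -- density in `x`
  have h1 : ∀ (y : UE μ (L2 G)), (∃ n, UE.map μ (ind ℂ (R.W n)) y = y) →
      inner ℂ (ContinuousLinearMap.adjoint (KK μ a E b) (UE.map μ (ind ℂ A) y))
        (ContinuousLinearMap.adjoint (KK μ a E b') (UE.map μ (ind ℂ B) (x : UE μ (L2 G)))) = (0 : ℂ) := by
    rintro y ⟨n, hn⟩
    refine XUa_zero (R := R') ((innerSL ℂ (ContinuousLinearMap.adjoint (KK μ a E b) (UE.map μ (ind ℂ A) y))).comp
      ((ContinuousLinearMap.adjoint (KK μ a E b')).comp (UE.map μ (ind ℂ B)))) ?_ x.2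
    rintro z ⟨n', hn'⟩
    change inner ℂ (ContinuousLinearMap.adjoint (KK μ a E b) (UE.map μ (ind ℂ A) y))
      (ContinuousLinearMap.adjoint (KK μ a E b') (UE.map μ (ind ℂ B) z)) = 0
    obtain ⟨M, hM1⟩ := hM n n'
    rw [← hn, ← hn', xind_ind, xind_ind]
    exact am_zero h3 hfar hM1 y z
  have h2 := XUa_zero (R := R) ((innerSL ℂ (ContinuousLinearMap.adjoint (KK μ a E b')
    (UE.map μ (ind ℂ B) (x : UE μ (L2 G))))).comp ((ContinuousLinearMap.adjoint (KK μ a E b)).comp (UE.map μ (ind ℂ A))))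
    (fun z hz => by
      change inner ℂ (ContinuousLinearMap.adjoint (KK μ a E b') (UE.map μ (ind ℂ B) (x : UE μ (L2 G))))
        (ContinuousLinearMap.adjoint (KK μ a E b) (UE.map μ (ind ℂ A) z)) = 0
      rw [← inner_conj_symm, h1 z hz, map_zero]) y.2
  change inner ℂ (ContinuousLinearMap.adjoint (KK μ a E b') (UE.map μ (ind ℂ B) (x : UE μ (L2 G))))
        (ContinuousLinearMap.adjoint (KK μ a E b) (UE.map μ (ind ℂ A) (y : UE μ (L2 G)))) = 0 at h2
  rw [← inner_conj_symm, h2, map_zero]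

/-- **(AM)**: points over `b` and lines over `b'` are incident. -/
theorem am_main {S : Sv P} (hS : SO2 P S) (h3 : Tendsto (fun g : G1 => μ {x | a.a g x ≠ 1}) (𝓝 1) (𝓝 0))
    (hfar : Far μ a (Ctr b ∩ Ctr b')) (A B : Set G) (hAB : NonInc S A B) (x : XUa μ (R2 S)) :
    iUX (R1 S) A (Tb μ a E (R1 S) b (ContinuousLinearMap.adjoint (Tb μ a E (R2 S) b') (iUX (R2 S) B x))) = 0 :=
  am_gen h3 hfar (fun n n' => mult_main hS hAB n n') x

end Pool.Agent.Helper35.OB
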