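import Pool.Agent.Helper35.OB.AMDefs

/-!
# Project OB, layer AM, block AM1: the pair estimate in `ℓ²(G)`

If every `k` has at most `M` decompositions `k = g h⁻¹`, `g ∈ s`, `h ∈ s'`, and `T` commutes with the right translations, then
`|∑_q ⟨1_s α_q, T 1_s' β_q⟩|² ≤ M ∑_{q q'} |⟨α_q, α_q'⟩| |⟨β_q, β_q'⟩|`.
-/

set_option autoImplicit false
set_option linter.unusedSectionVars false

open MeasureTheory Filter Topology Matrix
open scoped ComplexConjugate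

namespace Pool.Agent.Helper35.OB

open Pool.Agent.Helper84 Pool.Agent.Helper84.GN Pool.Agent.Helper84.NI Pool.Agent.Helper84.GVN

variable {G : Type} [Group G]

/-- Counting the fibres of `(g, h) ↦ g h⁻¹`. -/
theorem sum_cf_le {s s' : Set G} {M : ℕ} (hM : Mult s s' M) (u : L2 G) (hu : ‖u‖ ≤ 1) (F : Finset (G × G))
    (hF : ∀ p ∈ F, p.1 ∈ s ∧ p.2 ∈ s') : ∑ p ∈ F, ‖u (p.1 * p.2⁻¹)‖ ^ 2 ≤ M := by
  classical
  have h1 : ∑ p ∈ F, ‖u (p.1 * p.2⁻¹)‖ ^ 2 =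
      ∑ k ∈ F.image (fun p => p.1 * p.2⁻¹), ∑ p ∈ F with p.1 * p.2⁻¹ = k, ‖u (p.1 * p.2⁻¹)‖ ^ 2 := by
    symm
    exact Finset.sum_fiberwise_of_maps_to (fun p hp => Finset.mem_image_of_mem _ hp) _
  rw [h1]
  have h2 : ∀ k ∈ F.image (fun p => p.1 * p.2⁻¹),
      ∑ p ∈ F with p.1 * p.2⁻¹ = k, ‖u (p.1 * p.2⁻¹)‖ ^ 2 ≤ M * ‖u k‖ ^ 2 := by
    intro k _
    have h3 : ∑ p ∈ F with p.1 * p.2⁻¹ = k, ‖u (p.1 * p.2⁻¹)‖ ^ 2 =
        (F.filter fun p => p.1 * p.2⁻¹ = k).card * ‖u k‖ ^ 2 := by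
      rw [Finset.sum_congr rfl (g := fun _ => ‖u k‖ ^ 2) fun p hp => by rw [(Finset.mem_filter.1 hp).2],
        Finset.sum_const, nsmul_eq_mul]
    rw [h3]
    refine mul_le_mul_of_nonneg_right ?_ (by positivity)
    have h4 := hM (F.filter fun p => p.1 * p.2⁻¹ = k) (fun p hp => hF p (Finset.mem_filter.1 hp).1)
      (fun p hp p' hp' => by rw [(Finset.mem_filter.1 hp).2, (Finset.mem_filter.1 hp').2])
    exact_mod_cast h4
  refine (Finset.sum_le_sum h2).trans ?_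
  rw [← Finset.mul_sum]
  have h5 : ∑ k ∈ F.image (fun p => p.1 * p.2⁻¹), ‖u k‖ ^ 2 ≤ 1 := by
    have h6 := lp.sum_rpow_le_norm_rpow (p := 2) (by norm_num) u (F.image fun p => p.1 * p.2⁻¹)
    have h7 : ‖u‖ ^ (2 : ENNReal).toReal ≤ 1 := Real.rpow_le_one (norm_nonneg _) hu (by norm_num)
    refine le_trans (le_of_eq (Finset.sum_congr rfl fun k _ => ?_)) (h6.trans h7)
    norm_num
  have hM0 : (0 : ℝ) ≤ M := Nat.cast_nonneg _
  nlinarith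

variable {ι : Type}

/-- The Hilbert-Schmidt norm of `∑_q α_q ⊗ β_q`, finite parts. -/
theorem sum_sq_le (Q : Finset ι) (α β : ι → L2 G) (F F' : Finset G) :
    ∑ p ∈ F ×ˢ F', ‖∑ q ∈ Q, conj (α q p.1) * β q p.2‖ ^ 2 ≤
      ∑ q ∈ Q, ∑ q' ∈ Q, ‖(inner ℂ (α q) (α q') : ℂ)‖ * ‖(inner ℂ (β q) (β q') : ℂ)‖ := by
  -- the vectors `v g = ∑ conj (α q g) β q`
  have h1 : ∀ g, ∑ h ∈ F', ‖∑ q ∈ Q, conj (α q g) * β q h‖ ^ 2 ≤ ‖∑ q ∈ Q, conj (α q g) • β q‖ ^ 2 := by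
    intro g
    have h2 := lp.sum_rpow_le_norm_rpow (p := 2) (by norm_num) (∑ q ∈ Q, conj (α q g) • β q) F'
    have e2 : ∀ h, (∑ q ∈ Q, conj (α q g) • β q : L2 G) h = ∑ q ∈ Q, conj (α q g) * β q h := by
      intro h
      rw [lp.coeFn_sum, Finset.sum_apply]
      rfl
    simp only [e2] at h2
    norm_num at h2
    exact h2
  have h3 : ∀ g, ((‖∑ q ∈ Q, conj (α q g) • β q‖ ^ 2 : ℝ) : ℂ) =
      ∑ q ∈ Q, ∑ q' ∈ Q, inner ℂ (β q) (β q') * (conj (α q' g) * α q g) := by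
    intro g
    have h4 : ((‖∑ q ∈ Q, conj (α q g) • β q‖ ^ 2 : ℝ) : ℂ) =
        inner ℂ (∑ q ∈ Q, conj (α q g) • β q) (∑ q ∈ Q, conj (α q g) • β q) := by
      rw [inner_self_eq_norm_sq_to_K]
      norm_cast
    rw [h4, sum_inner]
    refine Finset.sum_congr rfl fun q _ => ?_
    rw [inner_sum]
    refine Finset.sum_congr rfl fun q' _ => ?_
    rw [inner_smul_left, inner_smul_right, Complex.conj_conj]
    ring
  have h5 : HasSum (fun g => ((‖∑ q ∈ Q, conj (α q g) • β q‖ ^ 2 : ℝ) : ℂ))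
      (∑ q ∈ Q, ∑ q' ∈ Q, inner ℂ (β q) (β q') * inner ℂ (α q') (α q)) := by
    simp only [h3]
    refine hasSum_sum fun q _ => hasSum_sum fun q' _ => HasSum.mul_left _ ?_
    have h6 := lv_inner (α q') (α q)
    have e6 : (fun g => inner ℂ (α q' g) (α q g)) = fun g => conj (α q' g) * α q g := by
      funext g
      rw [RCLike.inner_apply, mul_comm]
    rw [e6] at h6
    exact h6
  have h7 : ∑ g ∈ F, ‖∑ q ∈ Q, conj (α q g) • β q‖ ^ 2 ≤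
      ‖∑ q ∈ Q, ∑ q' ∈ Q, (inner ℂ (β q) (β q') * inner ℂ (α q') (α q) : ℂ)‖ := by
    have h8 := Complex.hasSum_re h5
    simp only [Complex.ofReal_re] at h8
    exact (sum_le_hasSum F (fun g _ => by positivity) h8).trans (Complex.re_le_norm _)
  rw [Finset.sum_product]
  refine (Finset.sum_le_sum fun g _ => h1 g).trans (h7.trans ?_)
  refine (norm_sum_le _ _).trans (Finset.sum_le_sum fun q _ => (norm_sum_le _ _).trans
    (Finset.sum_le_sum fun q' _ => ?_))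
  rw [norm_mul, mul_comm, norm_inner_symm (α q') (α q)]

/-- The pair estimate, finite parts. -/
theorem pair_fin {s s' : Set G} {M : ℕ} (hM : Mult s s' M) {T : L2 G ≃ₗᵢ[ℂ] L2 G} (hT : CommR T)
    (Q : Finset ι) (α β : ι → L2 G) (F F' : Finset G) (hF : ∀ g ∈ F, g ∈ s) (hF' : ∀ g ∈ F', g ∈ s') :
    ‖∑ q ∈ Q, inner ℂ (∑ g ∈ F, α q g • (dl g : L2 G)) (T (∑ h ∈ F', β q h • (dl h : L2 G)))‖ ^ 2 ≤
      M * ∑ q ∈ Q, ∑ q' ∈ Q, ‖(inner ℂ (α q) (α q') : ℂ)‖ * ‖(inner ℂ (β q) (β q') : ℂ)‖ := by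
  have h1 : ∑ q ∈ Q, inner ℂ (∑ g ∈ F, α q g • (dl g : L2 G)) (T (∑ h ∈ F', β q h • (dl h : L2 G))) =
      ∑ p ∈ F ×ˢ F', cf T (p.1 * p.2⁻¹) * ∑ q ∈ Q, conj (α q p.1) * β q p.2 := by
    rw [Finset.sum_product]
    have h2 : ∀ q, inner ℂ (∑ g ∈ F, α q g • (dl g : L2 G)) (T (∑ h ∈ F', β q h • (dl h : L2 G))) =
        ∑ g ∈ F, ∑ h ∈ F', cf T (g * h⁻¹) * (conj (α q g) * β q h) := by
      intro q
      rw [sum_inner]
      refine Finset.sum_congr rfl fun g _ => ?_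
      rw [map_sum, inner_sum]
      refine Finset.sum_congr rfl fun h _ => ?_
      rw [map_smul, inner_smul_left, inner_smul_right, inner_dl_left, hT.apply_dl]
      ring
    rw [Finset.sum_congr rfl fun q _ => h2 q, Finset.sum_comm]
    refine Finset.sum_congr rfl fun g _ => ?_
    rw [Finset.sum_comm]
    refine Finset.sum_congr rfl fun h _ => ?_
    rw [Finset.mul_sum]
  rw [h1]
  have h3 : ‖∑ p ∈ F ×ˢ F', cf T (p.1 * p.2⁻¹) * ∑ q ∈ Q, conj (α q p.1) * β q p.2‖ ≤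
      ∑ p ∈ F ×ˢ F', ‖cf T (p.1 * p.2⁻¹)‖ * ‖∑ q ∈ Q, conj (α q p.1) * β q p.2‖ :=
    (norm_sum_le _ _).trans (le_of_eq (Finset.sum_congr rfl fun p _ => norm_mul _ _))
  refine (pow_le_pow_left₀ (norm_nonneg _) h3 2).trans ?_
  refine (Finset.sum_mul_sq_le_sq_mul_sq _ _ _).trans ?_
  refine mul_le_mul ?_ (sum_sq_le Q α β F F') (Finset.sum_nonneg fun _ _ => by positivity) (Nat.cast_nonneg _)
  exact sum_cf_le hM (cf T) (norm_cf T).le (F ×ˢ F') fun p hp =>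
    ⟨hF _ (Finset.mem_product.1 hp).1, hF' _ (Finset.mem_product.1 hp).2⟩

/-- **The pair estimate.** -/
theorem pair_le {s s' : Set G} {M : ℕ} (hM : Mult s s' M) {T : L2 G ≃ₗᵢ[ℂ] L2 G} (hT : CommR T)
    (Q : Finset ι) (α β : ι → L2 G) :
    ‖∑ q ∈ Q, inner ℂ (ind ℂ s (α q)) (T (ind ℂ s' (β q)))‖ ^ 2 ≤
      M * ∑ q ∈ Q, ∑ q' ∈ Q, ‖(inner ℂ (α q) (α q') : ℂ)‖ * ‖(inner ℂ (β q) (β q') : ℂ)‖ := by
  classical
  -- approximate by finite parts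
  have h1 : ∀ (A : Set G) (f : L2 G), Tendsto (fun F : Finset G => ∑ g ∈ F with g ∈ A, f g • (dl g : L2 G)) atTop
      (𝓝 (ind ℂ A f)) := by
    intro A f
    have h2 := hasSum_dl (ind ℂ A f)
    refine (show Tendsto _ _ _ from h2).congr fun F => ?_
    rw [Finset.sum_filter]
    refine Finset.sum_congr rfl fun g _ => ?_
    change (ind ℂ A f : L2 G) g • (dl g : L2 G) = _
    rw [ind_apply, ite_smul, zero_smul]
  have h2 : Tendsto (fun F : Finset G => ‖∑ q ∈ Q, inner ℂ (∑ g ∈ F with g ∈ s, α q g • (dl g : L2 G))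
      (T (∑ h ∈ F with h ∈ s', β q h • (dl h : L2 G)))‖ ^ 2) atTop
      (𝓝 (‖∑ q ∈ Q, inner ℂ (ind ℂ s (α q)) (T (ind ℂ s' (β q)))‖ ^ 2)) := by
    refine Tendsto.pow (Tendsto.norm (tendsto_finsetSum _ fun q _ => ?_)) 2
    exact (h1 s (α q)).inner ((T.continuous.tendsto _).comp (h1 s' (β q)))
  refine le_of_tendsto h2 (Eventually.of_forall fun F => ?_)
  exact pair_fin hM hT Q α β _ _ (fun g hg => (Finset.mem_filter.1 hg).2) fun g hg => (Finset.mem_filter.1 hg).2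

end Pool.Agent.Helper35.OB
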