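import Pool.Agent.Helper35.OB.AM1

/-!
# Project OB, layer AM, block AM2: the operators `Bop g s = (WW g)* 1_s (WW g)`
-/

set_option autoImplicit false
set_option linter.unusedSectionVars false

open MeasureTheory Filter Topology Matrix
open scoped ComplexConjugate

namespace Pool.Agent.Helper35.OB

open Pool.Agent.Helper84 Pool.Agent.Helper84.GN Pool.Agent.Helper84.GN.S3 Pool.Agent.Helper84.GN.S3.X
open Pool.Agent.Helper84.NI Pool.Agent.Helper84.GVN Pool.Agent.Helper90.RK Pool.Agent.Helper78.BM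
open Pool.Agent.Helper96.RK Pool.Agent.Helper66.FR Pool.Agent.Helper84.FR Pool.Agent.Helper55.FR

variable {G1 X G Λ : Type} [Group G1] [MeasurableSpace X] [MulAction G1 X] [MeasurableConstSMul G1 X]
  [Group G] [Group Λ] [Countable Λ] {μ : Measure X} [SMulInvariantMeasure G1 X μ] [IsProbabilityMeasure μ]
  {a : Cocy G1 X Λ} {E : Emb Λ G}

theorem a_inv (g : G1) (x : X) : a.a g⁻¹ (g • x) = (a.a g x)⁻¹ := by
  have h := a.mul g⁻¹ g x
  rw [inv_mul_cancel, a.one] at h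
  exact eq_inv_of_mul_eq_one_left h.symm

/-- The inverse of `WW g`. -/
noncomputable def WWi (μ : Measure X) [SMulInvariantMeasure G1 X μ] (a : Cocy G1 X Λ) (E : Emb Λ G) (g : G1) :
    XL μ (L2 G) →L[ℂ] XL μ (L2 G) :=
  (cl μ ((ivU G).symm.toContinuousLinearEquiv : L2 G →L[ℂ] L2 G)).comp (vg μ a E.U g⁻¹)

theorem inner_WW (g : G1) (φ ψ : XL μ (L2 G)) : inner ℂ (WW μ a E g φ) (WW μ a E g ψ) = inner ℂ φ ψ := by
  change inner ℂ (vgR μ a E.U g (clU μ (ivU G) φ)) (vgR μ a E.U g (clU μ (ivU G) ψ)) = _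
  rw [LinearIsometryEquiv.inner_map_map, LinearIsometryEquiv.inner_map_map]

theorem WW_WWi (g : G1) (φ : XL μ (L2 G)) : WW μ a E g (WWi μ a E g φ) = φ := by
  change vg μ a E.U g (clU μ (ivU G) ((clU μ (ivU G).symm) (vg μ a E.U g⁻¹ φ))) = φ
  have h : clU μ (ivU G) ((clU μ (ivU G).symm) (vg μ a E.U g⁻¹ φ)) = vg μ a E.U g⁻¹ φ := by
    refine xl_ext ?_
    filter_upwards [clU_apply_ae (μ := μ) (ivU G) ((clU μ (ivU G).symm) (vg μ a E.U g⁻¹ φ)),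
      clU_apply_ae (μ := μ) (ivU G).symm (vg μ a E.U g⁻¹ φ)] with x h1 h2
    rw [h1, h2, LinearIsometryEquiv.apply_symm_apply]
  rw [h, ← vg_mul, mul_inv_cancel, vg_one]

theorem adj_WW (g : G1) : ContinuousLinearMap.adjoint (WW μ a E g) = WWi μ a E g := by
  symm
  rw [ContinuousLinearMap.eq_adjoint_iff]
  intro x y
  rw [← inner_WW (a := a) (E := E) g (WWi μ a E g x) y, WW_WWi]

/-- The operators `Bop` are decomposable. -/
theorem Bop_apply (g : G1) (s : Set G) (φ : XL μ (L2 G)) : ∀ᵐ x ∂μ, Bop μ a E g s φ x =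
    (ivU G).symm (E.U (a.a g x)⁻¹ (ind ℂ s (E.U (a.a g x) (ivU G (φ x))))) := by
  have q := (measurePreserving_smul g μ).quasiMeasurePreserving
  filter_upwards [cl_apply (μ := μ) ((ivU G).symm.toContinuousLinearEquiv : L2 G →L[ℂ] L2 G)
      (vg μ a E.U g⁻¹ (cl μ (ind ℂ s) (WW μ a E g φ))),
    vg_apply a E.U g⁻¹ (cl μ (ind ℂ s) (WW μ a E g φ)),
    q.ae (cl_apply (μ := μ) (ind ℂ s) (WW μ a E g φ)), q.ae (WW_apply (μ := μ) a E g φ)] with x h1 h2 h3 h4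
  change (ContinuousLinearMap.adjoint (WW μ a E g)) (cl μ (ind ℂ s) (WW μ a E g φ)) x = _
  rw [adj_WW]
  change cl μ _ (vg μ a E.U g⁻¹ (cl μ (ind ℂ s) (WW μ a E g φ))) x = _
  rw [h1, h2]
  simp only [inv_inv] at h2 ⊢
  rw [h3, h4, a_inv, inv_smul_smul]
  rfl

variable {ι : Type}

/-- The pointwise pair estimate. -/
theorem Bop_pair {s s' : Set G} {M : ℕ} (hM : Mult s s' M) (g1 g2 : G1) (Q : Finset ι) (φ ψ : ι → XL μ (L2 G)) :
    ∀ᵐ x ∂μ, ‖∑ q ∈ Q, inner ℂ (Bop μ a E g1 s (φ q) x) (Bop μ a E g2 s' (ψ q) x)‖ ^ 2 ≤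
      M * ∑ q ∈ Q, ∑ q' ∈ Q, ‖(inner ℂ (φ q x) (φ q' x) : ℂ)‖ * ‖(inner ℂ (ψ q x) (ψ q' x) : ℂ)‖ := by
  have h1 : ∀ᵐ x ∂μ, ∀ q ∈ Q, Bop μ a E g1 s (φ q) x =
      (ivU G).symm (E.U (a.a g1 x)⁻¹ (ind ℂ s (E.U (a.a g1 x) (ivU G (φ q x))))) :=
    (ae_ball_iff (Finset.countable_toSet Q)).2 fun q _ => Bop_apply g1 s (φ q)
  have h2 : ∀ᵐ x ∂μ, ∀ q ∈ Q, Bop μ a E g2 s' (ψ q) x =
      (ivU G).symm (E.U (a.a g2 x)⁻¹ (ind ℂ s' (E.U (a.a g2 x) (ivU G (ψ q x))))) :=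
    (ae_ball_iff (Finset.countable_toSet Q)).2 fun q _ => Bop_apply g2 s' (ψ q)
  filter_upwards [h1, h2] with x e1 e2
  have h3 := pair_le hM (E.comm (a.a g1 x * (a.a g2 x)⁻¹)) Q (fun q => E.U (a.a g1 x) (ivU G (φ q x)))
    (fun q => E.U (a.a g2 x) (ivU G (ψ q x)))
  simp only [LinearIsometryEquiv.inner_map_map] at h3
  refine le_trans (le_of_eq ?_) h3
  congr 2
  refine Finset.sum_congr rfl fun q hq => ?_
  rw [e1 q hq, e2 q hq, LinearIsometryEquiv.inner_map_map]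
  rw [← LinearIsometryEquiv.inner_map_map (E.U (a.a g1 x)) (E.U (a.a g1 x)⁻¹ _)]
  rw [map_inv, map_mul, map_inv]
  congr 1
  exact LinearIsometryEquiv.apply_symm_apply (E.U (a.a g1 x)) _

end Pool.Agent.Helper35.OB
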