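import Pool.Agent.Helper35.OB.AM2

/-!
# Project OB, layer AM, block AM3: the integrated estimate
-/

set_option autoImplicit false
set_option linter.unusedSectionVars false

open MeasureTheory Filter Topology Matrix
open scoped ComplexConjugate

namespace Pool.Agent.Helper35.OB

open Pool.Agent.Helper84 Pool.Agent.Helper84.GN Pool.Agent.Helper84.GN.S3 Pool.Agent.Helper84.GN.S3.X
open Pool.Agent.Helper84.NI Pool.Agent.Helper84.GVN Pool.Agent.Helper90.RK Pool.Agent.Helper78.BM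
open Pool.Agent.Helper96.RK Pool.Agent.Helper66.FR Pool.Agent.Helper84.FR Pool.Agent.Helper55.FR

variable {G1 X G Λ : Type} [Group G1] [MeasurableSpace X] [MulAction G1 X] [MeasurableConstSMul G1 X]
  [Group G] [Group Λ] [Countable Λ] {μ : Measure X} [SMulInvariantMeasure G1 X μ] [IsProbabilityMeasure μ]
  {a : Cocy G1 X Λ} {E : Emb Λ G}

/-- Test vectors `1_D ⊗ δ_k`. -/
noncomputable def tv (μ : Measure X) [IsProbabilityMeasure μ] (D : Set X) (k : G) : XL μ (L2 G) :=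
  xE μ (L2 G) D (cst μ (dl k))

/-- Orthogonality of the vectors `J U_l J δ_k`. -/
theorem inner_jj {l l' : Λ} (h : l ≠ l') (k : G) : inner ℂ (jjR E l (dl k)) (jjR E l' (dl k)) = 0 := by
  have h1 : jjR E l' (dl k) = jjR E l (jjR E (l⁻¹ * l') (dl k)) := by
    have h2 : jjR E l' = jjR E l * jjR E (l⁻¹ * l') := by rw [← map_mul, mul_inv_cancel_left]
    rw [h2]
    rfl
  rw [h1, LinearIsometryEquiv.inner_map_map]
  have h3 : (dl k : L2 G) = lamU k (dl 1) := by rw [lamU_dl, mul_one]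
  have h4 : jjR E (l⁻¹ * l') (dl k) = lamU k (jjR E (l⁻¹ * l') (dl 1)) := by
    rw [h3]
    exact (E.conj.comm (l⁻¹ * l')).jjU_lam k (dl 1)
  rw [h4, h3, LinearIsometryEquiv.inner_map_map, inner_dl_left]
  change jjU (E.conj.U (l⁻¹ * l')) (dl 1) 1 = 0
  rw [jjU_apply]
  have h5 : cj (ivU G (dl 1)) = (dl 1 : L2 G) := by
    refine l2_ext fun x => ?_
    rw [cj_apply, ivU_apply, dl_apply, dl_apply]
    by_cases hx : x = 1
    · simp [hx]
    · simp [hx]
  rw [h5, ivU_apply, cj_apply, inv_one]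
  have h6 : l⁻¹ * l' ≠ 1 := fun h7 => h (inv_mul_eq_one.1 h7)
  have h7 := E.conj.tr _ h6
  unfold cf at h7
  rw [h7, map_zero]

theorem norm_ind_le (D : Set X) (x : X) : ‖D.indicator (fun _ => (1 : ℂ)) x‖ ≤ 1 := by
  unfold Set.indicator
  split_ifs <;> simp

/-- The Gram matrix of the vectors `V_q (1_D ⊗ δ_k)`. -/
theorem gram {D : Set X} (hD : MeasurableSet D) (k : G) (q q' : G1) : ∀ᵐ x ∂μ,
    ‖(inner ℂ (Vq μ a E q (tv μ D k) x) (Vq μ a E q' (tv μ D k) x) : ℂ)‖ ≤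
      ({x | a.a (q⁻¹ * q') (q'⁻¹ • x) = 1} : Set X).indicator (fun _ => (1 : ℝ)) x := by
  have h0 : ∀ q : G1, ∀ᵐ x ∂μ, Vq μ a E q (tv μ D k) x =
      jjR E (a.a q (q⁻¹ • x)) (D.indicator (fun _ => (1 : ℂ)) (q⁻¹ • x) • (dl k : L2 G)) := by
    intro q
    have qm := (measurePreserving_smul q⁻¹ μ).quasiMeasurePreserving
    filter_upwards [vg_apply a (jjR E) q (tv μ D k), qm.ae (xE_apply hD (cst μ (dl k : L2 G))),
      qm.ae (cst_apply (μ := μ) (dl k : L2 G))] with x h1 h2 h3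
    rw [h1]
    unfold tv
    rw [h2, h3]
  filter_upwards [h0 q, h0 q'] with x h1 h2
  rw [h1, h2, map_smul, map_smul, inner_smul_left, inner_smul_right]
  have h3 := norm_ind_le D (q⁻¹ • x)
  have h4 := norm_ind_le D (q'⁻¹ • x)
  rw [norm_mul, norm_mul, RCLike.norm_conj]
  by_cases h5 : x ∈ {x | a.a (q⁻¹ * q') (q'⁻¹ • x) = 1}
  · rw [Set.indicator_of_mem h5]
    have h6 : ‖(inner ℂ (jjR E (a.a q (q⁻¹ • x)) (dl k : L2 G)) (jjR E (a.a q' (q'⁻¹ • x)) (dl k : L2 G)) : ℂ)‖ ≤ 1 := by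
      refine (norm_inner_le_norm _ _).trans ?_
      rw [LinearIsometryEquiv.norm_map, LinearIsometryEquiv.norm_map, norm_dl, one_mul]
    refine mul_le_one₀ h3 (by positivity) (mul_le_one₀ h4 (norm_nonneg _) h6)
  · rw [Set.indicator_of_notMem h5]
    have h6 : a.a q (q⁻¹ • x) ≠ a.a q' (q'⁻¹ • x) := by
      intro h7
      refine h5 ?_
      have h8 := a.mul q (q⁻¹ * q') (q'⁻¹ • x)
      rw [mul_inv_cancel_left, smul_smul, mul_inv_cancel_right, ← h7] at h8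
      change a.a (q⁻¹ * q') (q'⁻¹ • x) = 1
      exact (left_eq_mul).1 h8
    rw [inner_jj h6, norm_zero, mul_zero, mul_zero]

theorem meas_set (a : Cocy G1 X Λ) (q q' : G1) : MeasurableSet {x | a.a (q⁻¹ * q') (q'⁻¹ • x) = 1} := by
  have h := (measurable_const_smul q'⁻¹) (a.meas (q⁻¹ * q') 1)
  exact h

/-- **The integrated estimate.** -/
theorem Bop_int {s s' : Set G} {M : ℕ} (hM : Mult s s' M) (g1 g2 : G1) (Q : Finset G1) {D D' : Set X}
    (hD : MeasurableSet D) (hD' : MeasurableSet D') (k k' : G) {ε : ℝ} (hε0 : 0 ≤ ε)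
    (hε : ∀ q ∈ Q, ∀ q' ∈ Q, q ≠ q' → (μ {x | a.a (q⁻¹ * q') x = 1}).toReal ≤ ε) {t : ℝ} (ht : 0 < t) :
    2 * t * ‖∑ q ∈ Q, inner ℂ (Bop μ a E g1 s (Vq μ a E q (tv μ D k))) (Bop μ a E g2 s' (Vq μ a E q (tv μ D' k')))‖ ≤
      M * (Q.card + Q.card ^ 2 * ε) + t ^ 2 := by
  classical
  have hM0 : (0 : ℝ) ≤ M := Nat.cast_nonneg _
  -- the bound
  obtain ⟨h, hh⟩ : ∃ h : X → ℝ, h = fun x => M * ∑ q ∈ Q, ∑ q' ∈ Q,
      ({x | a.a (q⁻¹ * q') (q'⁻¹ • x) = 1} : Set X).indicator (fun _ => (1 : ℝ)) x := ⟨_, rfl⟩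
  have hint1 : ∀ q q' : G1, Integrable (({x | a.a (q⁻¹ * q') (q'⁻¹ • x) = 1} : Set X).indicator
      fun _ => (1 : ℝ)) μ := fun q q' => (integrable_const _).indicator (meas_set a q q')
  have hhint : Integrable h μ := by
    rw [hh]
    exact (integrable_finsetSum _ fun q _ => integrable_finsetSum _ fun q' _ => hint1 q q').const_mul _
  have hval : ∀ q q' : G1, ∫ x, ({x | a.a (q⁻¹ * q') (q'⁻¹ • x) = 1} : Set X).indicator (fun _ => (1 : ℝ)) x ∂μ =
      (μ {x | a.a (q⁻¹ * q') x = 1}).toReal := by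
    intro q q'
    rw [integral_indicator (meas_set a q q'), setIntegral_const, smul_eq_mul, mul_one]
    have h1 : μ {x | a.a (q⁻¹ * q') (q'⁻¹ • x) = 1} = μ {x | a.a (q⁻¹ * q') x = 1} :=
      (measurePreserving_smul q'⁻¹ μ).measure_preimage (a.meas (q⁻¹ * q') 1).nullMeasurableSet
    rw [← h1]
    rfl
  have hhI : ∫ x, h x ∂μ ≤ M * (Q.card + Q.card ^ 2 * ε) := by
    rw [hh, integral_const_mul, integral_finsetSum _ fun q _ => integrable_finsetSum _ fun q' _ => hint1 q q']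
    refine mul_le_mul_of_nonneg_left ?_ hM0
    have h1 : ∀ q ∈ Q, ∫ x, ∑ q' ∈ Q, ({x | a.a (q⁻¹ * q') (q'⁻¹ • x) = 1} : Set X).indicator (fun _ => (1 : ℝ)) x ∂μ ≤
        1 + Q.card * ε := by
      intro q hq
      rw [integral_finsetSum _ fun q' _ => hint1 q q']
      have h2 : ∀ q' ∈ Q, ∫ x, ({x | a.a (q⁻¹ * q') (q'⁻¹ • x) = 1} : Set X).indicator (fun _ => (1 : ℝ)) x ∂μ ≤
          (if q' = q then 1 else 0) + ε := by
        intro q' hq'
        rw [hval]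
        split_ifs with h3
        · have h4 : (μ {x | a.a (q⁻¹ * q') x = 1}).toReal ≤ 1 := by
            have h5 := ENNReal.toReal_mono ENNReal.one_ne_top (prob_le_one (μ := μ) (s := {x | a.a (q⁻¹ * q') x = 1}))
            rwa [ENNReal.toReal_one] at h5
          linarith
        · rw [zero_add]
          exact hε q hq q' hq' fun h5 => h3 h5.symm
      refine (Finset.sum_le_sum h2).trans ?_
      rw [Finset.sum_add_distrib, Finset.sum_ite_eq', if_pos hq, Finset.sum_const, nsmul_eq_mul]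
    refine (Finset.sum_le_sum h1).trans ?_
    rw [Finset.sum_const, nsmul_eq_mul]
    refine le_of_eq ?_
    ring
  -- the pointwise estimate
  obtain ⟨f, hf⟩ : ∃ f : X → ℂ, f = fun x => ∑ q ∈ Q, inner ℂ (Bop μ a E g1 s (Vq μ a E q (tv μ D k)) x)
      (Bop μ a E g2 s' (Vq μ a E q (tv μ D' k')) x) := ⟨_, rfl⟩
  have hfint : Integrable f μ := by
    rw [hf]
    exact integrable_finsetSum _ fun q _ => xl_int_inner _ _
  have hfI : ∑ q ∈ Q, inner ℂ (Bop μ a E g1 s (Vq μ a E q (tv μ D k))) (Bop μ a E g2 s' (Vq μ a E q (tv μ D' k'))) =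
      ∫ x, f x ∂μ := by
    rw [hf, integral_finsetSum _ fun q _ => xl_int_inner _ _]
    exact Finset.sum_congr rfl fun q _ => xl_inner _ _
  have hpt : ∀ᵐ x ∂μ, 2 * t * ‖f x‖ ≤ h x + t ^ 2 := by
    have g1' : ∀ᵐ x ∂μ, ∀ q ∈ Q, ∀ q' ∈ Q, ‖(inner ℂ (Vq μ a E q (tv μ D k) x) (Vq μ a E q' (tv μ D k) x) : ℂ)‖ ≤
        ({x | a.a (q⁻¹ * q') (q'⁻¹ • x) = 1} : Set X).indicator (fun _ => (1 : ℝ)) x :=
      (ae_ball_iff (Finset.countable_toSet Q)).2 fun q _ => (ae_ball_iff (Finset.countable_toSet Q)).2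
        fun q' _ => gram hD k q q'
    have g2' : ∀ᵐ x ∂μ, ∀ q ∈ Q, ∀ q' ∈ Q, ‖(inner ℂ (Vq μ a E q (tv μ D' k') x) (Vq μ a E q' (tv μ D' k') x) : ℂ)‖ ≤
        ({x | a.a (q⁻¹ * q') (q'⁻¹ • x) = 1} : Set X).indicator (fun _ => (1 : ℝ)) x :=
      (ae_ball_iff (Finset.countable_toSet Q)).2 fun q _ => (ae_ball_iff (Finset.countable_toSet Q)).2
        fun q' _ => gram hD' k' q q'
    filter_upwards [Bop_pair (a := a) (E := E) hM g1 g2 Q (fun q => Vq μ a E q (tv μ D k))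
      (fun q => Vq μ a E q (tv μ D' k')), g1', g2'] with x h1 h2 h3
    have h4 : ‖f x‖ ^ 2 ≤ h x := by
      rw [hf, hh]
      refine h1.trans (mul_le_mul_of_nonneg_left (Finset.sum_le_sum fun q hq => Finset.sum_le_sum fun q' hq' => ?_) hM0)
      have h5 := h2 q hq q' hq'
      have h6 := h3 q hq q' hq'
      have h7 : ({x | a.a (q⁻¹ * q') (q'⁻¹ • x) = 1} : Set X).indicator (fun _ => (1 : ℝ)) x ≤ 1 := by
        unfold Set.indicator
        split_ifs <;> simp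
      calc _ ≤ ({x | a.a (q⁻¹ * q') (q'⁻¹ • x) = 1} : Set X).indicator (fun _ => (1 : ℝ)) x * 1 :=
            mul_le_mul h5 (h6.trans h7) (norm_nonneg _) ((norm_nonneg _).trans h5)
        _ = _ := mul_one _
    nlinarith [sq_nonneg (‖f x‖ - t)]
  rw [hfI]
  have h8 : 2 * t * ‖∫ x, f x ∂μ‖ ≤ ∫ x, (2 * t * ‖f x‖) ∂μ := by
    rw [integral_const_mul]
    exact mul_le_mul_of_nonneg_left (norm_integral_le_integral_norm _) (by positivity)
  refine h8.trans ((integral_mono_ae (hfint.norm.const_mul _) (hhint.add (integrable_const _)) hpt).trans ?_)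
  have h9 : ∫ x, (h x + t ^ 2) ∂μ = ∫ x, h x ∂μ + t ^ 2 := by
    rw [integral_add hhint (integrable_const _), integral_const]
    simp
  change ∫ x, (h x + t ^ 2) ∂μ ≤ _
  rw [h9]
  linarith

end Pool.Agent.Helper35.OB
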