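import Pool.Agent.Helper35.OB.AM3

/-!
# Project OB, layer AM, block AM4: the amplification

`Th b s = KK* 1_s KK` commutes with `V_q` for `q ∈ Ctr b`; if every `k` has at most `M` decompositions `k = g h⁻¹`, `g ∈ s`, `h ∈ s'`, and `Ctr b ∩ Ctr b'` is not relatively compact, then
`1_s KK_b KK_b'* 1_s' = 0`.
-/

set_option autoImplicit false
set_option linter.unusedSectionVars false

open MeasureTheory Filter Topology Matrix
open scoped ComplexConjugate

namespace Pool.Agent.Helper35.OB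

open Pool.Agent.Helper84 Pool.Agent.Helper84.GN Pool.Agent.Helper84.GN.S3 Pool.Agent.Helper84.GN.S3.X
open Pool.Agent.Helper84.NI Pool.Agent.Helper84.GVN Pool.Agent.Helper90.RK Pool.Agent.Helper78.BM
open Pool.Agent.Helper96.RK Pool.Agent.Helper66.FR Pool.Agent.Helper84.FR Pool.Agent.Helper55.FR

variable {G1 X G Λ : Type} [Group G1] [MeasurableSpace X] [MulAction G1 X] [MeasurableConstSMul G1 X]
  [Group G] [Group Λ] [Countable Λ] {μ : Measure X} [SMulInvariantMeasure G1 X μ] [IsProbabilityMeasure μ]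
  {a : Cocy G1 X Λ} {E : Emb Λ G} {b b' : ℕ → G1}

/-- The positive operators `KK* 1_s KK`. -/
noncomputable def Th (μ : Measure X) [SMulInvariantMeasure G1 X μ] [IsProbabilityMeasure μ] (a : Cocy G1 X Λ)
    (E : Emb Λ G) (b : ℕ → G1) (s : Set G) : XL μ (L2 G) →L[ℂ] XL μ (L2 G) :=
  (ContinuousLinearMap.adjoint (KK μ a E b)).comp ((UE.map μ (ind ℂ s)).comp (KK μ a E b))

theorem inner_Th (s : Set G) (φ η : XL μ (L2 G)) : inner ℂ (Th μ a E b s φ) η =
    inner ℂ (UE.map μ (ind ℂ s) (KK μ a E b φ)) (KK μ a E b η) := by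
  change inner ℂ (ContinuousLinearMap.adjoint (KK μ a E b) (UE.map μ (ind ℂ s) (KK μ a E b φ))) η = _
  rw [ContinuousLinearMap.adjoint_inner_left]

/-- The limit of the operators `Bop`. -/
theorem tendsto_Bop (s : Set G) (φ η : XL μ (L2 G)) :
    Tendsto (fun n => (inner ℂ (Bop μ a E (b n) s φ) η : ℂ)) (hyperfilter ℕ : Filter ℕ)
      (𝓝 (inner ℂ (Th μ a E b s φ) η)) := by
  have h1 := UP.tendsto_inner (BSeq.map (cl μ (ind ℂ s)) (KS μ a E b φ)) (KS μ a E b η)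
  have h2 : (inner ℂ (UP.mk (BSeq.map (cl μ (ind ℂ s)) (KS μ a E b φ))) (UP.mk (KS μ a E b η)) : ℂ) =
      inner ℂ (Th μ a E b s φ) η := by
    rw [inner_Th, ← UE.inner_val]
    change _ = inner ℂ (uxm μ (ind ℂ s) (UE.val (KK μ a E b φ))) (UE.val (KK μ a E b η))
    rw [val_KK, val_KK, uxm_mk]
  rw [h2] at h1
  refine h1.congr fun n => ?_
  change inner ℂ (cl μ (ind ℂ s) (WW μ a E (b n) φ)) (WW μ a E (b n) η) =
    inner ℂ (ContinuousLinearMap.adjoint (WW μ a E (b n)) (cl μ (ind ℂ s) (WW μ a E (b n) φ))) η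
  rw [ContinuousLinearMap.adjoint_inner_left]

variable {ι : Type}

/-- A bound for the operators `Bop` passes to the limit. -/
theorem Th_le {s s' : Set G} (Q : Finset ι) (φ ψ : ι → XL μ (L2 G)) {C : ℝ}
    (h : ∀ g1 g2 : G1, ‖∑ q ∈ Q, inner ℂ (Bop μ a E g1 s (φ q)) (Bop μ a E g2 s' (ψ q))‖ ≤ C) :
    ‖∑ q ∈ Q, inner ℂ (Th μ a E b s (φ q)) (Th μ a E b' s' (ψ q))‖ ≤ C := by
  have h1 : ∀ n, ‖∑ q ∈ Q, inner ℂ (Bop μ a E (b n) s (φ q)) (Th μ a E b' s' (ψ q))‖ ≤ C := by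
    intro n
    have h2 : Tendsto (fun m => ‖∑ q ∈ Q, (inner ℂ (Bop μ a E (b n) s (φ q)) (Bop μ a E (b' m) s' (ψ q)) : ℂ)‖)
        (hyperfilter ℕ : Filter ℕ) (𝓝 ‖∑ q ∈ Q, inner ℂ (Bop μ a E (b n) s (φ q)) (Th μ a E b' s' (ψ q))‖) := by
      refine (tendsto_finsetSum _ fun q _ => ?_).norm
      have h3 := (Complex.continuous_conj.tendsto _).comp
        (tendsto_Bop (μ := μ) (a := a) (E := E) (b := b') s' (ψ q) (Bop μ a E (b n) s (φ q)))
      rw [inner_conj_symm] at h3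
      refine h3.congr fun m => ?_
      exact inner_conj_symm _ _
    exact le_of_tendsto h2 (Eventually.of_forall fun m => h _ _)
  have h2 : Tendsto (fun n => ‖∑ q ∈ Q, (inner ℂ (Bop μ a E (b n) s (φ q)) (Th μ a E b' s' (ψ q)) : ℂ)‖)
      (hyperfilter ℕ : Filter ℕ) (𝓝 ‖∑ q ∈ Q, inner ℂ (Th μ a E b s (φ q)) (Th μ a E b' s' (ψ q))‖) :=
    (tendsto_finsetSum _ fun q _ => tendsto_Bop (μ := μ) (a := a) (E := E) (b := b) s (φ q) _).norm
  exact le_of_tendsto h2 (Eventually.of_forall h1)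

/-- Commutation of `Th` with the contracted elements. -/
theorem Th_V [TopologicalSpace G1] [IsTopologicalGroup G1]
    (h3 : Tendsto (fun g : G1 => μ {x | a.a g x ≠ 1}) (𝓝 1) (𝓝 0)) (s : Set G) {q : G1} (hq : q ∈ Ctr b)
    (φ : XL μ (L2 G)) : Th μ a E b s (Vq μ a E q φ) = Vq μ a E q (Th μ a E b s φ) := by
  have hK : ∀ φ : XL μ (L2 G), KK μ a E b (Vq μ a E q φ) =
      UE.sS μ (L2 G) (fun n => b n * q * (b n)⁻¹) (KK μ a E b φ) := by
    intro φ
    have h1 : KK μ a E b (Vq μ a E q φ) = KK μ a E (fun n => b n * q) φ := by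
      refine UE.eq ?_
      rw [val_KK, val_KK]
      congr 1
      apply Subtype.ext
      funext n
      change WW μ a E (b n) (vg μ a (jjR E) q φ) = WW μ a E (b n * q) φ
      have h := WW_vg (μ := μ) (a := a) (E := E) (b n * q) q φ
      rwa [mul_inv_cancel_right] at h
    rw [h1]
    exact KK_near (b := b) h3 hq (fun n => by group) φ
  exact adj_comm (KK μ a E b) (M := UE.map μ (ind ℂ s)) (M' := UE.map μ (ind ℂ s)) (u := Vq μ a E q)
    (s := UE.sS μ (L2 G) fun n => b n * q * (b n)⁻¹)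
    (inner_Vq q) (fun y => ⟨Vq μ a E q⁻¹ y, Vq_inv' q y⟩)
    (fun x y => (UE.sS μ (L2 G) fun n => b n * q * (b n)⁻¹).inner_map_map x y) hK
    (fun x => UE.map_sS (ind ℂ s) _ x) φ

/-- **The amplification.** -/
theorem inner_Th_zero [TopologicalSpace G1] [IsTopologicalGroup G1]
    (h3 : Tendsto (fun g : G1 => μ {x | a.a g x ≠ 1}) (𝓝 1) (𝓝 0)) (hfar : Far μ a (Ctr b ∩ Ctr b'))
    {s s' : Set G} {M : ℕ} (hM : Mult s s' M) (φ ψ : XL μ (L2 G)) :
    inner ℂ (Th μ a E b s φ) (Th μ a E b' s' ψ) = (0 : ℂ) := by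
  -- test vectors
  have key : ∀ (D D' : Set X) (k k' : G), MeasurableSet D → MeasurableSet D' →
      inner ℂ (Th μ a E b s (tv μ D k)) (Th μ a E b' s' (tv μ D' k')) = (0 : ℂ) := by
    intro D D' k k' hD hD'
    by_contra hne
    obtain ⟨z, hz⟩ : ∃ z : ℝ, z = ‖(inner ℂ (Th μ a E b s (tv μ D k)) (Th μ a E b' s' (tv μ D' k')) : ℂ)‖ := ⟨_, rfl⟩
    have hz0 : 0 < z := by
      rw [hz]
      exact norm_pos_iff.2 hne
    have hM0 : (0 : ℝ) ≤ M := Nat.cast_nonneg _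
    -- choice of the parameters
    obtain ⟨K, hK⟩ := exists_nat_gt (8 * (M + 1) / z ^ 2)
    obtain ⟨ε, hε⟩ : ∃ ε : ℝ, ε = z ^ 2 / (8 * (M + 1)) := ⟨_, rfl⟩
    have hε0 : 0 < ε := by
      rw [hε]
      positivity
    obtain ⟨Q, hQK, hQD, hQ⟩ := hfar (K + 1) ε hε0
    have hc : (0 : ℝ) < Q.card := by
      have h1 : 0 < Q.card := lt_of_lt_of_le (Nat.succ_pos K) hQK
      exact_mod_cast h1
    have hcK : (8 * (M + 1) / z ^ 2) < Q.card := by
      have h1 : (K : ℝ) ≤ Q.card := by exact_mod_cast (Nat.le_succ K).trans hQK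
      linarith
    have ht : 0 < z * Q.card := by positivity
    -- the bound
    have h1 : ‖∑ q ∈ Q, inner ℂ (Th μ a E b s (Vq μ a E q (tv μ D k))) (Th μ a E b' s' (Vq μ a E q (tv μ D' k')))‖ ≤
        (M * (Q.card + Q.card ^ 2 * ε) + (z * Q.card) ^ 2) / (2 * (z * Q.card)) := by
      refine Th_le Q _ _ fun g1 g2 => ?_
      rw [le_div_iff₀ (by positivity), mul_comm]
      exact Bop_int hM g1 g2 Q hD hD' k k' hε0.le hQ ht
    have h2 : ∑ q ∈ Q, inner ℂ (Th μ a E b s (Vq μ a E q (tv μ D k))) (Th μ a E b' s' (Vq μ a E q (tv μ D' k'))) =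
        Q.card * inner ℂ (Th μ a E b s (tv μ D k)) (Th μ a E b' s' (tv μ D' k')) := by
      rw [← nsmul_eq_mul, ← Finset.sum_const]
      refine Finset.sum_congr rfl fun q hq => ?_
      rw [Th_V h3 s (hQD q hq).1, Th_V h3 s' (hQD q hq).2, inner_Vq]
    rw [h2, norm_mul, ← hz] at h1
    have h4 : ‖((Q.card : ℕ) : ℂ)‖ = Q.card := by
      rw [Complex.norm_natCast]
    rw [h4, le_div_iff₀ (by positivity)] at h1
    -- `2 z² c² ≤ M (c + c² ε) + z² c²`
    have h5 : z ^ 2 * (Q.card : ℝ) ^ 2 ≤ M * (Q.card + Q.card ^ 2 * ε) := by nlinarith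
    have h6 : M * ((Q.card : ℝ) ^ 2 * ε) ≤ z ^ 2 * Q.card ^ 2 / 8 := by
      have e : M * ((Q.card : ℝ) ^ 2 * ε) = (M / (M + 1)) * (z ^ 2 * Q.card ^ 2 / 8) := by
        rw [hε]
        field_simp
      rw [e]
      refine mul_le_of_le_one_left (by positivity) ?_
      rw [div_le_one (by positivity)]
      linarith
    have h7 : (M : ℝ) * Q.card ≤ z ^ 2 * Q.card ^ 2 / 8 := by
      rw [div_lt_iff₀ (by positivity)] at hcK
      nlinarith
    have h8 : 0 < z ^ 2 * (Q.card : ℝ) ^ 2 := by positivity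
    nlinarith
  -- density
  have h1 : ∀ (D : Set X) (k : G), MeasurableSet D → ∀ ψ,
      inner ℂ (Th μ a E b s (tv μ D k)) (Th μ a E b' s' ψ) = (0 : ℂ) := by
    intro D k hD ψ
    have h2 : (innerSL ℂ (Th μ a E b s (tv μ D k))).comp (Th μ a E b' s') = 0 := by
      refine xl_clm_ext fun D' hD' k' => ?_
      exact key D D' k k' hD hD'
    exact DFunLike.congr_fun h2 ψ
  have h2 : (innerSL ℂ (Th μ a E b' s' ψ)).comp (Th μ a E b s) = 0 := by
    refine xl_clm_ext fun D hD k => ?_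
    change inner ℂ (Th μ a E b' s' ψ) (Th μ a E b s (tv μ D k)) = 0
    rw [← inner_conj_symm, h1 D k hD ψ, map_zero]
  have h4 : inner ℂ (Th μ a E b' s' ψ) (Th μ a E b s φ) = (0 : ℂ) := DFunLike.congr_fun h2 φ
  rw [← inner_conj_symm, h4, map_zero]

/-- Positivity. -/
theorem pos_zero {H K K' : Type} [NormedAddCommGroup H] [InnerProductSpace ℂ H] [CompleteSpace H]
    [NormedAddCommGroup K] [InnerProductSpace ℂ K] [CompleteSpace K] [NormedAddCommGroup K'] [InnerProductSpace ℂ K']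
    [CompleteSpace K'] (T : H →L[ℂ] K) (T' : H →L[ℂ] K') (p : K →L[ℂ] K) (p' : K' →L[ℂ] K')
    (hp : ∀ x y, inner ℂ (p x) y = (inner ℂ x (p y) : ℂ)) (hpp : ∀ x, p (p x) = p x)
    (hp' : ∀ x y, inner ℂ (p' x) y = (inner ℂ x (p' y) : ℂ)) (hpp' : ∀ x, p' (p' x) = p' x)
    (h : ∀ φ ψ, inner ℂ (ContinuousLinearMap.adjoint T (p (T φ))) (ContinuousLinearMap.adjoint T' (p' (T' ψ))) = (0 : ℂ))
    (y : K) (x : K') : inner ℂ (ContinuousLinearMap.adjoint T (p y)) (ContinuousLinearMap.adjoint T' (p' x)) = (0 : ℂ) := by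
  -- first step
  have h1 : ∀ ψ, p (T (ContinuousLinearMap.adjoint T' (p' (T' ψ)))) = 0 := by
    intro ψ
    have h2 := h (ContinuousLinearMap.adjoint T' (p' (T' ψ))) ψ
    rw [ContinuousLinearMap.adjoint_inner_left, ← hpp, hp, inner_self_eq_zero] at h2
    exact h2
  have h2 : ∀ y, p' (T' (ContinuousLinearMap.adjoint T (p y))) = 0 := by
    intro y
    have h3 : inner ℂ (p (T (ContinuousLinearMap.adjoint T' (p' (T' (ContinuousLinearMap.adjoint T (p y))))))) y =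
        (0 : ℂ) := by
      rw [h1, inner_zero_left]
    rw [hp, ← ContinuousLinearMap.adjoint_inner_right, ContinuousLinearMap.adjoint_inner_left, ← hpp', hp',
      inner_self_eq_zero] at h3
    exact h3
  rw [ContinuousLinearMap.adjoint_inner_right, ← hp', h2, inner_zero_left]

end Pool.Agent.Helper35.OB
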