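import Pool.Agent.Helper84.OB.S1Defs
import Pool.Agent.Helper55.OB.Defs

/-!
# Project OB (MP_0f6f3f_an, target `so(2, n)`), layer AM (amplification): definitions

`Mult s s' M`: every `k` has at most `M` decompositions `k = g h⁻¹` with `g ∈ s`, `h ∈ s'`. `Far μ a D`: `D` contains arbitrarily large finite sets whose elements are far apart for the cocycle.
`Bop μ a E g s = (WW g)* 1_s (WW g)`.
-/

set_option autoImplicit false
set_option linter.unusedSectionVars false

open MeasureTheory Filter Topology Matrix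

namespace Pool.Agent.Helper35.OB

open Pool.Agent.Helper84 Pool.Agent.Helper84.GN Pool.Agent.Helper84.GN.S3 Pool.Agent.Helper84.GN.S3.X
open Pool.Agent.Helper84.NI Pool.Agent.Helper84.GVN Pool.Agent.Helper90.RK Pool.Agent.Helper78.BM
open Pool.Agent.Helper96.RK Pool.Agent.Helper66.FR Pool.Agent.Helper84.FR Pool.Agent.Helper55.FR

/-- Every element has at most `M` decompositions `g h⁻¹` with `g ∈ s`, `h ∈ s'`. -/
def Mult {G : Type} [Group G] (s s' : Set G) (M : ℕ) : Prop :=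
  ∀ F : Finset (G × G), (∀ p ∈ F, p.1 ∈ s ∧ p.2 ∈ s') → (∀ p ∈ F, ∀ p' ∈ F, p.1 * p.2⁻¹ = p'.1 * p'.2⁻¹) → F.card ≤ M

section X

variable {G1 X G Λ : Type} [Group G1] [MeasurableSpace X] [MulAction G1 X] [MeasurableConstSMul G1 X]
  [Group G] [Group Λ] [Countable Λ]

/-- The set `D` contains arbitrarily large finite sets whose elements are far apart. -/
def Far (μ : Measure X) (a : Cocy G1 X Λ) (D : Set G1) : Prop :=
  ∀ (K : ℕ) (ε : ℝ), 0 < ε → ∃ Q : Finset G1, K ≤ Q.card ∧ (∀ q ∈ Q, q ∈ D) ∧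
    ∀ q ∈ Q, ∀ q' ∈ Q, q ≠ q' → (μ {x | a.a (q⁻¹ * q') x = 1}).toReal ≤ ε

/-- The operators `(WW g)* 1_s (WW g)`. -/
noncomputable def Bop (μ : Measure X) [SMulInvariantMeasure G1 X μ] (a : Cocy G1 X Λ) (E : Emb Λ G) (g : G1) (s : Set G) :
    XL μ (L2 G) →L[ℂ] XL μ (L2 G) :=
  (ContinuousLinearMap.adjoint (WW μ a E g)).comp ((cl μ (ind ℂ s)).comp (WW μ a E g))

end X

end Pool.Agent.Helper35.OB
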