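import Pool.Agent.Helper35.OB.AMDefs

/-!
# Project OB, layer AM, geometry: the shape of `g h⁻¹`

`Sh N c K lam mu M`: the matrix `M` has entries at most `lam * mu`, entries at most `K mu` outside the row `0`, an entry at least `c lam mu` in the row `0`, and is bounded below by `c mu` on the span of the last two
basis vectors. `M = diag(s g) (kR g)ᴴ (kR h) diag(s h)⁻¹` has this shape for `g` in the first stratum, `h` in the second, if the point of `g` is not on the line of `h`.
-/

set_option autoImplicit false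
set_option linter.unusedSectionVars false

open Filter Topology Matrix

namespace Pool.Agent.Helper35.OB

open Pool.Agent.Helper84 Pool.Agent.Helper84.NI Pool.Agent.Helper90.RK Pool.Agent.Helper55.OB Pool.Agent.Helper96.RK
open Pool.Agent.Helper9.Lin (cjM)

/-- The shape of `g h⁻¹`. -/
structure Sh (N : ℕ) (c K lam mu : ℝ) (M : MN N) : Prop where
  top : ∀ i j, ‖M i j‖ ≤ lam * mu
  low : ∀ i j : Fin N, (i : ℕ) ≠ 0 → ‖M i j‖ ≤ K * mu
  row : ∃ i j : Fin N, (i : ℕ) = 0 ∧ c * lam * mu ≤ ‖M i j‖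
  plane : ∀ x : Fin N → ℂ, (∀ j : Fin N, (j : ℕ) + 2 < N → x j = 0) →
    c ^ 2 * mu ^ 2 * ∑ j, ‖x j‖ ^ 2 ≤ ∑ i, ‖(M *ᵥ x) i‖ ^ 2

variable {G : Type} [Group G] {N : ℕ} {P : PH G N}

/-- The matrix of `g h⁻¹` with respect to the bases of left singular vectors of `g` and `h`. -/
noncomputable def Mgh (S : Sv P) (g h : G) : MN N :=
  diagonal (fun i => (S.s g i : ℂ)) * ((S.kR g)ᴴ * S.kR h) * diagonal (fun i => ((S.s h i)⁻¹ : ℂ))

theorem Mgh_apply (S : Sv P) (g h : G) (i j : Fin N) :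
    Mgh S g h i j = S.s g i * ((S.kR g)ᴴ * S.kR h) i j * (S.s h j : ℂ)⁻¹ := by
  unfold Mgh
  rw [mul_diagonal, diagonal_mul]

end Pool.Agent.Helper35.OB
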