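import Pool.Agent.Helper35.OB.AMG0

/-!
# Project OB, layer AM, block AM-G1: the shape of `g h⁻¹` for non incident `g`, `h`

PROOF. Let `V = (kR g)ᴴ (kR h)`: unitary, real (`cjM V = V`), `Vᵀ J V = J` (from `hS.formR`; `Vᵀ = Vᴴ` as `V` is real), so `V J = J V` and `V J Vᵀ = J`. Let `lam = s g 0`, `mu = s h 0`.
BOUNDS. `R1 S = toReg (chStr S (K1 N) [])`, so `g ∈ (R1 S).W n` is `g ∈ WC S (K1 N) n`; `(chStr S (K1 N) []).cpt n` gives `K₁ ≥ 1` with `s g i ≤ K₁ s g j` for `i, j` in the same block; blocks of `K1`: `{0}`,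
`{1, .., N - 2}`, `{N - 1}`. As `s g 2 = 1` (`hS.mid`, `5 ≤ N`): `s g i ≤ K₁` for `i ≥ 1` (use `S.anti` for `i = N - 1`) and `1 ≤ K₁ s g i` for `i ≤ N - 2`. Similarly for `h` (blocks `{0, 1}`, `{2, .., N - 3}`,
`{N - 2, N - 1}`): `s h (N - 2) ≤ K₂ s h (N - 1)`, so with `s h (N - 1) = 1 / mu` (`hS.inv`): `1 / s h (N - 2) ≥ mu / K₂`; all `1 / s h j ≤ mu` (`S.anti`, `hS.inv`).
`top`: `|M i j| = s g i |V i j| / s h j ≤ lam mu`. `low`: `≤ K₁ mu`.
`row`: let `v = row 0 of V`, real unit vector. `ns (fl S 1 g * (1 - fl S 2 h)) = ∑_{j ≥ 2} |v j|²` (unitary invariance `ns_unitary_mul`, `ns_mul_unitary`), so it is `≥ δ`. The entry `(0, 0)` of `V J Vᵀ = J` is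
`∑ j, v j v (jj j) = 0`, i.e. `2 v 0 v (N-1) + 2 v 1 v (N-2) + ∑_{2 ≤ j ≤ N-3} v j² = 0`. With `ρ² = v (N-1)² + v (N-2)²`: `∑_{mid} v j² ≤ 2 ρ`, `δ ≤ 2 ρ + ρ² ≤ 3 ρ`. So `|v (N-1)|` or `|v (N-2)|` is at least `ρ / 2 ≥ δ / 6`, and
`|M 0 j| ≥ lam (δ / 6) mu / K₂` for this `j`.
`plane`: `z = diag(1 / s h) x`, supported on the last two indices, `‖z‖ ≥ (mu / K₂) ‖x‖`. `‖M x‖² = ∑ s g i² |(V z) i|² ≥ K₁⁻² ∑_{i ≤ N-2} |(V z) i|²` (for `i = 0`: `s g 0 ≥ 1`) `= K₁⁻² (‖z‖² - |(V z) (N-1)|²)`, and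
`(V z) (N-1) = V (N-1) (N-2) z (N-2) + V (N-1) (N-1) z (N-1)`, with `V (N-1) (N-1) = V 0 0`, `V (N-1) (N-2) = V 0 1` (`V J = J V`), so `|(V z) (N-1)|² ≤ (|v 0|² + |v 1|²) ‖z‖² ≤ (1 - δ) ‖z‖²`.
-/

set_option autoImplicit false
set_option linter.unusedSectionVars false

open Filter Topology Matrix

namespace Pool.Agent.Helper35.OB

open Pool.Agent.Helper84 Pool.Agent.Helper84.NI Pool.Agent.Helper90.RK Pool.Agent.Helper55.OB Pool.Agent.Helper96.RK
open Pool.Agent.Helper9.Lin (cjM)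
open Pool.Agent.Helper84.OB (fl NonInc)

variable {G : Type} [Group G] {N : ℕ} {P : PH G N}

private theorem jj_inv (N : ℕ) (i : Fin N) : jj N (jj N i) = i := by
  unfold jj
  have hi := i.2
  by_cases h : (i : ℕ) < 2 ∨ N ≤ (i : ℕ) + 2
  · have h2 : ((i.rev : Fin N) : ℕ) < 2 ∨ N ≤ ((i.rev : Fin N) : ℕ) + 2 := by
      rw [Fin.val_rev]
      omega
    rw [if_pos h, if_pos h2, Fin.rev_rev]
  · rw [if_neg h, if_neg h]

private theorem jj_sum {N : ℕ} (f : Fin N → ℝ) : ∑ j, f (jj N j) = ∑ j, f j := by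
  have hi : Function.Involutive (jj N) := jj_inv N
  exact Equiv.sum_comp hi.toPerm f

private theorem jj_lt_two {N : ℕ} (hN : 5 ≤ N) (j : Fin N) : ((jj N j : Fin N) : ℕ) < 2 ↔ N ≤ (j : ℕ) + 2 := by
  have hj := j.2
  unfold jj
  by_cases h : (j : ℕ) < 2 ∨ N ≤ (j : ℕ) + 2
  · rw [if_pos h, Fin.val_rev]
    omega
  · rw [if_neg h]
    omega

private theorem JJ_apply (N : ℕ) (i j : Fin N) : JJ N i j = if j = jj N i then 1 else 0 := rfl

private theorem mul_JJ {N : ℕ} (V : MN N) (i k : Fin N) : (V * JJ N) i k = V i (jj N k) := by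
  rw [Matrix.mul_apply, Finset.sum_eq_single (jj N k)]
  · rw [JJ_apply, jj_inv, if_pos rfl, mul_one]
  · intro l _ hl
    rw [JJ_apply, if_neg, mul_zero]
    intro h
    apply hl
    rw [h, jj_inv]
  · intro h
    exact absurd (Finset.mem_univ _) h

private theorem JJ_mul {N : ℕ} (V : MN N) (i k : Fin N) : (JJ N * V) i k = V (jj N i) k := by
  rw [Matrix.mul_apply, Finset.sum_eq_single (jj N i)]
  · rw [JJ_apply, if_pos rfl, one_mul]
  · intro l _ hl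
    rw [JJ_apply, if_neg hl, zero_mul]
  · intro h
    exact absurd (Finset.mem_univ _) h

/-- real, unitary, and preserves the form -/
private structure RU (N : ℕ) (V : MN N) : Prop where
  hU : IsU V
  hr : Vᴴ = Vᵀ
  hJ : V * JJ N * Vᵀ = JJ N

private theorem RU.comm {N : ℕ} {V : MN N} (h : RU N V) (i j : Fin N) : V (jj N i) (jj N j) = V i j := by
  have h1 : Vᵀ * V = 1 := by
    rw [← h.hr]
    exact h.hU
  have h2 : V * JJ N = JJ N * V := by
    have := congrArg (fun A => A * V) h.hJ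
    simp only [Matrix.mul_assoc] at this
    rw [h1, Matrix.mul_one] at this
    exact this
  have h3 := congrFun (congrFun h2 (jj N i)) j
  rw [mul_JJ, JJ_mul, jj_inv] at h3
  exact h3

private theorem RU.real {N : ℕ} {V : MN N} (h : RU N V) (i j : Fin N) : V i j = ((V i j).re : ℂ) := by
  have h1 := congrFun (congrFun h.hr j) i
  rw [Matrix.conjTranspose_apply, Matrix.transpose_apply] at h1
  exact (Complex.conj_eq_iff_re.1 h1).symm

private theorem RU.norm {N : ℕ} {V : MN N} (h : RU N V) (i j : Fin N) : ‖V i j‖ = |(V i j).re| := by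
  conv_lhs => rw [h.real i j]
  rw [Complex.norm_real, Real.norm_eq_abs]

private theorem RU.row_sum {N : ℕ} {V : MN N} (h : RU N V) (i : Fin N) : ∑ j, ‖V i j‖ ^ 2 = 1 := by
  have h1 := congrFun (congrFun h.hU.mul_star i) i
  rw [Matrix.mul_apply, Matrix.one_apply_eq] at h1
  have h2 : ((∑ j, ‖V i j‖ ^ 2 : ℝ) : ℂ) = ((1 : ℝ) : ℂ) := by
    push_cast
    rw [← h1]
    refine Finset.sum_congr rfl fun j _ => ?_
    rw [Matrix.conjTranspose_apply, RCLike.star_def, Complex.mul_conj']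
  exact_mod_cast h2

private theorem RU.le_one {N : ℕ} {V : MN N} (h : RU N V) (i j : Fin N) : ‖V i j‖ ≤ 1 := by
  have h1 : ‖V i j‖ ^ 2 ≤ 1 := by
    rw [← h.row_sum i]
    exact Finset.single_le_sum (f := fun j => ‖V i j‖ ^ 2) (fun _ _ => by positivity) (Finset.mem_univ j)
  nlinarith [norm_nonneg (V i j)]

private theorem RU.iso {N : ℕ} {V : MN N} (h : RU N V) (z : Fin N) (hz : jj N z ≠ z) :
    ∑ j, (V z j).re * (V z (jj N j)).re = 0 := by
  have h1 := congrFun (congrFun h.hJ z) z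
  rw [Matrix.mul_apply, JJ_apply, if_neg hz.symm] at h1
  have h2 : ((∑ j, (V z j).re * (V z (jj N j)).re : ℝ) : ℂ) = ((0 : ℝ) : ℂ) := by
    push_cast
    rw [← h1]
    refine Finset.sum_congr rfl fun j _ => ?_
    rw [mul_JJ, Matrix.transpose_apply, ← h.real, ← h.real, mul_comm]
  exact_mod_cast h2

private theorem card_le_two (N : ℕ) : ((Finset.univ : Finset (Fin N)).filter fun j : Fin N => N ≤ (j : ℕ) + 2).card ≤ 2 := by
  by_contra hc
  push Not at hc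
  obtain ⟨a, ha, b, hb, c, hcm, hab, hac, hbc⟩ := Finset.two_lt_card.1 hc
  simp only [Finset.mem_filter, Finset.mem_univ, true_and] at ha hb hcm
  have a2 := a.2
  have b2 := b.2
  have c2 := c.2
  have h1 : (a : ℕ) ≠ b := fun h => hab (Fin.ext h)
  have h2 : (a : ℕ) ≠ c := fun h => hac (Fin.ext h)
  have h3 : (b : ℕ) ≠ c := fun h => hbc (Fin.ext h)
  omega

private theorem row_aux {N : ℕ} (hN : 5 ≤ N) {V : MN N} (h : RU N V) {z : Fin N} (hz : (z : ℕ) = 0) {δ : ℝ}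
    (hδ : 0 < δ) (hs : δ ≤ ∑ j : Fin N, if 2 ≤ (j : ℕ) then ‖V z j‖ ^ 2 else 0) :
    ∃ j : Fin N, N ≤ (j : ℕ) + 2 ∧ δ / 7 ≤ ‖V z j‖ := by
  by_contra hcon
  push Not at hcon
  have hjz : jj N z ≠ z := by
    intro h0
    have := (jj_lt_two hN z).1 (by rw [h0]; omega)
    omega
  have h1 := h.iso z hjz
  have h2 : ∀ j : Fin N, (if 2 ≤ (j : ℕ) then ‖V z j‖ ^ 2 else 0) - (V z j).re * (V z (jj N j)).re ≤
      (if N ≤ (j : ℕ) + 2 then 2 * ‖V z j‖ else 0) +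
        (fun k : Fin N => if N ≤ (k : ℕ) + 2 then ‖V z k‖ else 0) (jj N j) := by
    intro j
    have n1 := h.le_one z j
    have n2 := h.le_one z (jj N j)
    have n3 := norm_nonneg (V z j)
    have n4 := norm_nonneg (V z (jj N j))
    have n5 : -((V z j).re * (V z (jj N j)).re) ≤ ‖V z j‖ * ‖V z (jj N j)‖ := by
      rw [h.norm, h.norm, ← abs_mul]
      exact neg_le_abs _
    have hj := j.2
    by_cases c1 : (j : ℕ) < 2
    · have c2 : ¬ 2 ≤ (j : ℕ) := by omega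
      have c3 : ¬ N ≤ (j : ℕ) + 2 := by omega
      have c4 : N ≤ ((jj N j : Fin N) : ℕ) + 2 := by
        rw [← jj_lt_two hN, jj_inv]
        exact c1
      simp only [if_neg c2, if_neg c3, if_pos c4]
      nlinarith
    · have c2 : 2 ≤ (j : ℕ) := by omega
      by_cases c3 : N ≤ (j : ℕ) + 2
      · have c4 : ¬ N ≤ ((jj N j : Fin N) : ℕ) + 2 := by
          rw [← jj_lt_two hN, jj_inv]
          exact c1
        simp only [if_pos c2, if_pos c3, if_neg c4]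
        nlinarith
      · have c4 : jj N j = j := by
          unfold jj
          rw [if_neg]
          omega
        simp only [c4, if_pos c2, if_neg c3]
        rw [h.norm, sq_abs]
        nlinarith
  have h3 := Finset.sum_le_sum fun j (_ : j ∈ Finset.univ) => h2 j
  rw [Finset.sum_sub_distrib, h1, Finset.sum_add_distrib,
    jj_sum (fun k : Fin N => if N ≤ (k : ℕ) + 2 then ‖V z k‖ else 0)] at h3
  have h4 : ∀ a : ℝ, 0 ≤ a → (∑ j : Fin N, if N ≤ (j : ℕ) + 2 then a else 0) ≤ 2 * a := by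
    intro a ha
    rw [← Finset.sum_filter, Finset.sum_const, nsmul_eq_mul]
    exact mul_le_mul_of_nonneg_right (by exact_mod_cast card_le_two N) ha
  have h5 : (∑ j : Fin N, if N ≤ (j : ℕ) + 2 then 2 * ‖V z j‖ else 0) ≤
      ∑ j : Fin N, if N ≤ (j : ℕ) + 2 then 2 * (δ / 7) else 0 := by
    refine Finset.sum_le_sum fun j _ => ?_
    by_cases c : N ≤ (j : ℕ) + 2
    · rw [if_pos c, if_pos c]
      have := hcon j c
      linarith
    · rw [if_neg c, if_neg c]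
  have h6 : (∑ j : Fin N, if N ≤ (j : ℕ) + 2 then ‖V z j‖ else 0) ≤
      ∑ j : Fin N, if N ≤ (j : ℕ) + 2 then δ / 7 else 0 := by
    refine Finset.sum_le_sum fun j _ => ?_
    by_cases c : N ≤ (j : ℕ) + 2
    · rw [if_pos c, if_pos c]
      exact (hcon j c).le
    · rw [if_neg c, if_neg c]
  have h7 := h4 (2 * (δ / 7)) (by positivity)
  have h8 := h4 (δ / 7) (by positivity)
  linarith

private theorem norm_mulVec {N : ℕ} {V : MN N} (h : IsU V) (w : Fin N → ℂ) :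
    ∑ i, ‖(V *ᵥ w) i‖ ^ 2 = ∑ i, ‖w i‖ ^ 2 := by
  have h1 := ns_unitary_mul h (Matrix.of fun (i : Fin N) (_ : Unit) => w i)
  unfold ns at h1
  simp only [Finset.univ_unique, Finset.sum_singleton, Matrix.of_apply] at h1
  exact h1

private theorem plane_aux {N : ℕ} (hN : 5 ≤ N) {V : MN N} (h : RU N V) {z : Fin N} (hz : (z : ℕ) = 0) {δ : ℝ}
    (hs : δ ≤ ∑ j : Fin N, if 2 ≤ (j : ℕ) then ‖V z j‖ ^ 2 else 0) {w : Fin N → ℂ}
    (hw : ∀ j : Fin N, (j : ℕ) + 2 < N → w j = 0) :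
    δ * ∑ j, ‖w j‖ ^ 2 ≤ ∑ i : Fin N, if (i : ℕ) + 2 ≤ N then ‖(V *ᵥ w) i‖ ^ 2 else 0 := by
  have h1 := norm_mulVec h.hU w
  have hjz : (jj N z : Fin N) = z.rev := by
    unfold jj
    rw [if_pos (Or.inl (by omega))]
  -- the last coordinate
  have h2 : ‖(V *ᵥ w) z.rev‖ ≤ ∑ j : Fin N, (if N ≤ (j : ℕ) + 2 then ‖V z (jj N j)‖ else 0) * ‖w j‖ := by
    have e : (V *ᵥ w) z.rev = ∑ j, V z.rev j * w j := rfl
    rw [e]
    refine (norm_sum_le _ _).trans (Finset.sum_le_sum fun j _ => ?_)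
    rw [norm_mul]
    by_cases c : N ≤ (j : ℕ) + 2
    · rw [if_pos c, ← hjz, ← h.comm (jj N z) j, jj_inv]
    · rw [if_neg c, hw j (by omega), norm_zero, mul_zero, mul_zero]
  have h3 : (∑ j : Fin N, (if N ≤ (j : ℕ) + 2 then ‖V z (jj N j)‖ else 0) * ‖w j‖) ^ 2 ≤
      (∑ j : Fin N, (if N ≤ (j : ℕ) + 2 then ‖V z (jj N j)‖ else 0) ^ 2) * ∑ j, ‖w j‖ ^ 2 :=
    Finset.sum_mul_sq_le_sq_mul_sq _ _ _
  have h4 : (∑ j : Fin N, (if N ≤ (j : ℕ) + 2 then ‖V z (jj N j)‖ else 0) ^ 2) ≤ 1 - δ := by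
    have e1 : ∀ j : Fin N, (if N ≤ (j : ℕ) + 2 then ‖V z (jj N j)‖ else 0) ^ 2 =
        (fun k : Fin N => if (k : ℕ) < 2 then ‖V z k‖ ^ 2 else 0) (jj N j) := by
      intro j
      have := jj_lt_two hN j
      by_cases c : N ≤ (j : ℕ) + 2
      · simp only [if_pos c, if_pos (this.2 c)]
      · have c2 : ¬ ((jj N j : Fin N) : ℕ) < 2 := fun hh => c (this.1 hh)
        simp only [if_neg c, if_neg c2]
        norm_num
    rw [Finset.sum_congr rfl fun j _ => e1 j, jj_sum (fun k : Fin N => if (k : ℕ) < 2 then ‖V z k‖ ^ 2 else 0)]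
    have e2 := h.row_sum z
    have e3 : ∑ j, ‖V z j‖ ^ 2 = (∑ j : Fin N, if (j : ℕ) < 2 then ‖V z j‖ ^ 2 else 0) +
        ∑ j : Fin N, if 2 ≤ (j : ℕ) then ‖V z j‖ ^ 2 else 0 := by
      rw [← Finset.sum_add_distrib]
      refine Finset.sum_congr rfl fun j _ => ?_
      by_cases c : (j : ℕ) < 2
      · rw [if_pos c, if_neg (by omega), add_zero]
      · rw [if_neg c, if_pos (by omega), zero_add]
    linarith
  have h5 : ∑ i, ‖(V *ᵥ w) i‖ ^ 2 = (∑ i : Fin N, if (i : ℕ) + 2 ≤ N then ‖(V *ᵥ w) i‖ ^ 2 else 0) +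
      ‖(V *ᵥ w) z.rev‖ ^ 2 := by
    have e1 : ∀ i : Fin N, ‖(V *ᵥ w) i‖ ^ 2 = (if (i : ℕ) + 2 ≤ N then ‖(V *ᵥ w) i‖ ^ 2 else 0) +
        if i = z.rev then ‖(V *ᵥ w) i‖ ^ 2 else 0 := by
      intro i
      have hi := i.2
      have hzr : ((z.rev : Fin N) : ℕ) = N - 1 := by
        rw [Fin.val_rev]
        omega
      by_cases c : (i : ℕ) + 2 ≤ N
      · have c2 : i ≠ z.rev := by
          intro hh
          have := congrArg Fin.val hh
          omega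
        rw [if_pos c, if_neg c2, add_zero]
      · have c2 : i = z.rev := Fin.ext (by omega)
        rw [if_neg c, if_pos c2, zero_add]
    rw [Finset.sum_congr rfl fun i _ => e1 i, Finset.sum_add_distrib, Finset.sum_ite_eq' Finset.univ z.rev,
      if_pos (Finset.mem_univ _)]
  have h6 : 0 ≤ ∑ j, ‖w j‖ ^ 2 := Finset.sum_nonneg fun j _ => by positivity
  have h7 : ‖(V *ᵥ w) z.rev‖ ^ 2 ≤ (1 - δ) * ∑ j, ‖w j‖ ^ 2 := by
    have a1 := pow_le_pow_left₀ (norm_nonneg _) h2 2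
    exact a1.trans (h3.trans (mul_le_mul_of_nonneg_right h4 h6))
  linarith

private theorem fl_mul {S : Sv P} (g h : G) : fl S 1 g * (1 - fl S 2 h) = S.kR g *
    (diagonal (fun i : Fin N => if (i : ℕ) < 1 then (1 : ℂ) else 0) * ((S.kR g)ᴴ * S.kR h) *
      (1 - diagonal (fun i : Fin N => if (i : ℕ) < 2 then (1 : ℂ) else 0))) * (S.kR h)ᴴ := by
  have e1 : S.kR h * (S.kR h)ᴴ = 1 := (S.uR h).mul_star
  unfold Pool.Agent.Helper84.OB.fl
  simp only [Matrix.mul_sub, Matrix.sub_mul, Matrix.mul_one, Matrix.mul_assoc]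
  rw [e1, Matrix.mul_one]

private theorem ns_fl {S : Sv P} (g h : G) {z : Fin N} (hz : (z : ℕ) = 0) : ns (fl S 1 g * (1 - fl S 2 h)) =
    ∑ j : Fin N, if 2 ≤ (j : ℕ) then ‖((S.kR g)ᴴ * S.kR h) z j‖ ^ 2 else 0 := by
  rw [fl_mul, ns_mul_unitary (S.uR h).star, ns_unitary_mul (S.uR g)]
  have e2 : (1 : MN N) - diagonal (fun i : Fin N => if (i : ℕ) < 2 then (1 : ℂ) else 0) =
      diagonal (fun i : Fin N => 1 - if (i : ℕ) < 2 then (1 : ℂ) else 0) := by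
    rw [← Matrix.diagonal_one, Matrix.diagonal_sub]
  rw [e2]
  unfold ns
  rw [Finset.sum_eq_single z]
  · refine Finset.sum_congr rfl fun j _ => ?_
    rw [mul_diagonal, diagonal_mul, if_pos (by omega), one_mul]
    by_cases c : (j : ℕ) < 2
    · rw [if_pos c, if_neg (by omega), sub_self, mul_zero, norm_zero]
      norm_num
    · rw [if_neg c, if_pos (by omega), sub_zero, mul_one]
  · intro i _ hi
    refine Finset.sum_eq_zero fun j _ => ?_
    have hi0 : ¬ (i : ℕ) < 1 := fun hh => hi (Fin.ext (by omega))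
    rw [mul_diagonal, diagonal_mul, if_neg hi0, zero_mul, zero_mul, norm_zero]
    norm_num
  · intro hh
    exact absurd (Finset.mem_univ _) hh

private theorem ru {S : Sv P} (hS : SO2 P S) (g h : G) : RU N ((S.kR g)ᴴ * S.kR h) := by
  have T : ∀ γ, (S.kR γ)ᴴ = (S.kR γ)ᵀ := by
    intro γ
    ext i j
    exact congrFun (congrFun (hS.realR γ) j) i
  have T2 : S.kR h * (S.kR h)ᵀ = 1 := by
    rw [← T]
    exact (S.uR h).mul_star
  refine ⟨(S.uR g).star.mul (S.uR h), ?_, ?_⟩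
  · rw [conjTranspose_mul, conjTranspose_conjTranspose, transpose_mul, T h, T g, transpose_transpose]
  · have h1 : S.kR h * JJ N * (S.kR h)ᵀ = JJ N := by
      calc S.kR h * JJ N * (S.kR h)ᵀ = S.kR h * ((S.kR h)ᵀ * JJ N * S.kR h) * (S.kR h)ᵀ := by rw [hS.formR h]
        _ = (S.kR h * (S.kR h)ᵀ) * JJ N * (S.kR h * (S.kR h)ᵀ) := by simp only [Matrix.mul_assoc]
        _ = JJ N := by rw [T2, Matrix.one_mul, Matrix.mul_one]
    rw [T g, transpose_mul, transpose_transpose]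
    calc (S.kR g)ᵀ * S.kR h * JJ N * ((S.kR h)ᵀ * S.kR g) = (S.kR g)ᵀ * (S.kR h * JJ N * (S.kR h)ᵀ) * S.kR g := by
          simp only [Matrix.mul_assoc]
      _ = JJ N := by rw [h1, hS.formR g]

private theorem bJ1 {N : ℕ} {i j : Fin N} (hi : (i : ℕ) ≠ 0) (hi2 : (i : ℕ) + 2 ≤ N) (hj : (j : ℕ) ≠ 0) (hj2 : (j : ℕ) + 2 ≤ N) :
    bJ (K1 N) i = bJ (K1 N) j := by
  unfold bJ
  congr 1
  ext k
  simp only [Finset.mem_filter, Finset.mem_univ, true_and, K1, Fin.lt_def]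
  omega

private theorem bJ2 {N : ℕ} (hN : 5 ≤ N) {i j : Fin N} (hi : N ≤ (i : ℕ) + 2) (hj : N ≤ (j : ℕ) + 2) :
    bJ (K2 N) i = bJ (K2 N) j := by
  unfold bJ
  congr 1
  ext k
  have hk := k.2
  simp only [Finset.mem_filter, Finset.mem_univ, true_and, K2, Fin.lt_def]
  omega

/-- **Block AM-G1.** -/
theorem sh_main {S : Sv P} (hS : SO2 P S) {δ : ℝ} (hδ : 0 < δ) (n n' : ℕ) : ∃ c K : ℝ, 0 < c ∧ 1 ≤ K ∧
    ∀ g ∈ (R1 S).W n, ∀ h ∈ (R2 S).W n', δ ≤ ns (fl S 1 g * (1 - fl S 2 h)) →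
      ∀ z : Fin N, (z : ℕ) = 0 → Sh N c K (S.s g z) (S.s h z) (Mgh S g h) := by
  have hN := hS.hN
  obtain ⟨K₁, hK1⟩ := (chStr S (K1 N) []).cpt n
  obtain ⟨K₂, hK2⟩ := (chStr S (K2 N) []).cpt n'
  obtain ⟨k1, hk1⟩ : ∃ k1, k1 = max K₁ 1 := ⟨_, rfl⟩
  obtain ⟨k2, hk2⟩ : ∃ k2, k2 = max K₂ 1 := ⟨_, rfl⟩
  have k11 : 1 ≤ k1 := by
    rw [hk1]
    exact le_max_right _ _
  have k21 : 1 ≤ k2 := by
    rw [hk2]
    exact le_max_right _ _
  obtain ⟨m, hm⟩ : ∃ m, m = min δ 1 := ⟨_, rfl⟩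
  have hm0 : 0 < m := by
    rw [hm]
    exact lt_min hδ one_pos
  have hmδ : m ≤ δ := by
    rw [hm]
    exact min_le_left _ _
  have hm1 : m ≤ 1 := by
    rw [hm]
    exact min_le_right _ _
  obtain ⟨c, hc⟩ : ∃ c, c = m / (7 * k1 * k2) := ⟨_, rfl⟩
  have hc0 : 0 < c := by
    rw [hc]
    positivity
  have hc2 : c * k1 * k2 = m / 7 := by
    rw [hc]
    field_simp
  refine ⟨c, k1, hc0, k11, fun g hg h hh hd z hz => ?_⟩
  have hg1 : ∀ i j, bJ (K1 N) i = bJ (K1 N) j → S.s g i ≤ k1 * S.s g j := fun i j hij =>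
    (hK1 g hg i j hij).trans (mul_le_mul_of_nonneg_right (by rw [hk1]; exact le_max_left _ _) (S.pos g j).le)
  have hh1 : ∀ i j, bJ (K2 N) i = bJ (K2 N) j → S.s h i ≤ k2 * S.s h j := fun i j hij =>
    (hK2 h hh i j hij).trans (mul_le_mul_of_nonneg_right (by rw [hk2]; exact le_max_left _ _) (S.pos h j).le)
  have htwo : S.s g ⟨2, by omega⟩ = 1 := hS.mid g _ (by simp) (by simpa using hN)
  have hA : ∀ i : Fin N, (i : ℕ) ≠ 0 → S.s g i ≤ k1 := by
    intro i hi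
    by_cases hi2 : (i : ℕ) + 2 ≤ N
    · have := hg1 i ⟨2, by omega⟩ (bJ1 hi hi2 (by simp) (by simp only; omega))
      rwa [htwo, mul_one] at this
    · have h1 : S.s g i ≤ S.s g ⟨2, by omega⟩ := S.anti g (Fin.le_def.2 (by simp only; omega))
      rw [htwo] at h1
      exact h1.trans k11
  have hB : ∀ i : Fin N, (i : ℕ) + 2 ≤ N → 1 ≤ k1 * S.s g i := by
    intro i hi
    by_cases hi2 : (i : ℕ) = 0
    · have h1 : S.s g ⟨2, by omega⟩ ≤ S.s g i := S.anti g (Fin.le_def.2 (by simp only; omega))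
      rw [htwo] at h1
      nlinarith
    · have := hg1 ⟨2, by omega⟩ i (bJ1 (by simp) (by simp only; omega) hi2 hi)
      rwa [htwo] at this
  have hzr : ((z.rev : Fin N) : ℕ) = N - 1 := by
    rw [Fin.val_rev]
    omega
  have hinv := hS.inv h z
  have hmu := S.pos h z
  have hC : ∀ j : Fin N, N ≤ (j : ℕ) + 2 → S.s h z ≤ k2 * (S.s h j)⁻¹ := by
    intro j hj
    have h1 := hh1 j z.rev (bJ2 hN hj (by omega))
    have h2 := S.pos h j
    rw [← div_eq_mul_inv, le_div_iff₀ h2]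
    calc S.s h z * S.s h j ≤ S.s h z * (k2 * S.s h z.rev) := mul_le_mul_of_nonneg_left h1 hmu.le
      _ = k2 * (S.s h z * S.s h z.rev) := by ring
      _ = k2 := by rw [hinv, mul_one]
  have hD : ∀ j : Fin N, (S.s h j)⁻¹ ≤ S.s h z := by
    intro j
    have h1 : S.s h z.rev ≤ S.s h j := S.anti h (Fin.le_def.2 (by have := j.2; omega))
    have h2 := S.pos h j
    rw [inv_le_iff_one_le_mul₀ h2, ← hinv]
    exact mul_le_mul_of_nonneg_left h1 hmu.le
  have hR := ru hS g h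
  have hs : δ ≤ ∑ j : Fin N, if 2 ≤ (j : ℕ) then ‖((S.kR g)ᴴ * S.kR h) z j‖ ^ 2 else 0 := by
    rw [← ns_fl g h hz]
    exact hd
  have hM : ∀ i j, ‖Mgh S g h i j‖ = S.s g i * ‖((S.kR g)ᴴ * S.kR h) i j‖ * (S.s h j)⁻¹ := by
    intro i j
    rw [Mgh_apply, norm_mul, norm_mul, norm_inv, Complex.norm_real, Complex.norm_real,
      Real.norm_of_nonneg (S.pos g i).le, Real.norm_of_nonneg (S.pos h j).le]
  refine ⟨fun i j => ?_, fun i j hi => ?_, ?_, fun x hx => ?_⟩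
  · rw [hM]
    have h1 : S.s g i ≤ S.s g z := S.anti g (Fin.le_def.2 (by omega))
    have h2 := hR.le_one i j
    have h3 := S.pos g i
    have h4 : S.s g i * ‖((S.kR g)ᴴ * S.kR h) i j‖ ≤ S.s g z := by
      calc S.s g i * ‖((S.kR g)ᴴ * S.kR h) i j‖ ≤ S.s g i * 1 := mul_le_mul_of_nonneg_left h2 h3.le
        _ ≤ S.s g z := by rw [mul_one]; exact h1
    exact mul_le_mul h4 (hD j) (inv_nonneg.2 (S.pos h j).le) (S.pos g z).le
  · rw [hM]
    have h1 := hA i hi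
    have h2 := hR.le_one i j
    have h3 := S.pos g i
    have h4 : S.s g i * ‖((S.kR g)ᴴ * S.kR h) i j‖ ≤ k1 := by
      calc S.s g i * ‖((S.kR g)ᴴ * S.kR h) i j‖ ≤ S.s g i * 1 := mul_le_mul_of_nonneg_left h2 h3.le
        _ ≤ k1 := by rw [mul_one]; exact h1
    exact mul_le_mul h4 (hD j) (inv_nonneg.2 (S.pos h j).le) (by linarith)
  · obtain ⟨j, hj, hjv⟩ := row_aux hN hR hz hδ hs
    refine ⟨z, j, hz, ?_⟩
    rw [hM]
    have h1 := hC j hj
    have h2 : 0 < (S.s h j)⁻¹ := inv_pos.2 (S.pos h j)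
    have h3 := S.pos g z
    have h4 : c * k2 ≤ ‖((S.kR g)ᴴ * S.kR h) z j‖ := by
      refine le_trans ?_ hjv
      have h5 : c * k2 * 1 ≤ c * k2 * k1 := mul_le_mul_of_nonneg_left k11 (by positivity)
      have h6 : c * k2 * k1 = m / 7 := by
        rw [← hc2]
        ring
      linarith
    calc c * S.s g z * S.s h z ≤ c * S.s g z * (k2 * (S.s h j)⁻¹) := mul_le_mul_of_nonneg_left h1 (by positivity)
      _ = S.s g z * (c * k2) * (S.s h j)⁻¹ := by ring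
      _ ≤ S.s g z * ‖((S.kR g)ᴴ * S.kR h) z j‖ * (S.s h j)⁻¹ :=
        mul_le_mul_of_nonneg_right (mul_le_mul_of_nonneg_left h4 h3.le) h2.le
  · obtain ⟨w, hw⟩ : ∃ w : Fin N → ℂ, w = fun j => (S.s h j : ℂ)⁻¹ * x j := ⟨_, rfl⟩
    have hw0 : ∀ j : Fin N, (j : ℕ) + 2 < N → w j = 0 := by
      intro j hj
      rw [hw]
      simp only
      rw [hx j hj, mul_zero]
    have h1 := plane_aux hN hR hz hs hw0
    have h2 : ∀ i, ‖(Mgh S g h *ᵥ x) i‖ = S.s g i * ‖(((S.kR g)ᴴ * S.kR h) *ᵥ w) i‖ := by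
      intro i
      have e : (Mgh S g h *ᵥ x) i = (S.s g i : ℂ) * (((S.kR g)ᴴ * S.kR h) *ᵥ w) i := by
        change ∑ j, Mgh S g h i j * x j = (S.s g i : ℂ) * ∑ j, ((S.kR g)ᴴ * S.kR h) i j * w j
        rw [Finset.mul_sum, hw]
        refine Finset.sum_congr rfl fun j _ => ?_
        rw [Mgh_apply]
        ring
      rw [e, norm_mul, Complex.norm_real, Real.norm_of_nonneg (S.pos g i).le]
    have h3 : (∑ i : Fin N, if (i : ℕ) + 2 ≤ N then ‖(((S.kR g)ᴴ * S.kR h) *ᵥ w) i‖ ^ 2 else 0) ≤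
        k1 ^ 2 * ∑ i, ‖(Mgh S g h *ᵥ x) i‖ ^ 2 := by
      rw [Finset.mul_sum]
      refine Finset.sum_le_sum fun i _ => ?_
      by_cases ci : (i : ℕ) + 2 ≤ N
      · rw [if_pos ci, h2, ← mul_pow]
        refine pow_le_pow_left₀ (norm_nonneg _) ?_ 2
        rw [← mul_assoc]
        exact le_mul_of_one_le_left (norm_nonneg _) (hB i ci)
      · rw [if_neg ci]
        positivity
    have h4 : S.s h z ^ 2 * ∑ j, ‖x j‖ ^ 2 ≤ k2 ^ 2 * ∑ j, ‖w j‖ ^ 2 := by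
      rw [Finset.mul_sum, Finset.mul_sum]
      refine Finset.sum_le_sum fun j _ => ?_
      rw [← mul_pow, ← mul_pow]
      refine pow_le_pow_left₀ (by positivity) ?_ 2
      by_cases cj : N ≤ (j : ℕ) + 2
      · have e : ‖w j‖ = (S.s h j)⁻¹ * ‖x j‖ := by
          rw [hw]
          simp only
          rw [norm_mul, norm_inv, Complex.norm_real, Real.norm_of_nonneg (S.pos h j).le]
        rw [e, ← mul_assoc]
        exact mul_le_mul_of_nonneg_right (hC j cj) (norm_nonneg _)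
      · rw [hx j (by omega), norm_zero, mul_zero]
        positivity
    have hX : 0 ≤ ∑ j, ‖w j‖ ^ 2 := Finset.sum_nonneg fun j _ => by positivity
    have h5 : (c * k1 * k2) ^ 2 ≤ δ := by
      rw [hc2]
      nlinarith
    have hk0 : 0 < k1 ^ 2 := by positivity
    refine le_of_mul_le_mul_left ?_ hk0
    calc k1 ^ 2 * (c ^ 2 * S.s h z ^ 2 * ∑ j, ‖x j‖ ^ 2) = (c * k1) ^ 2 * (S.s h z ^ 2 * ∑ j, ‖x j‖ ^ 2) := by ring
      _ ≤ (c * k1) ^ 2 * (k2 ^ 2 * ∑ j, ‖w j‖ ^ 2) := mul_le_mul_of_nonneg_left h4 (by positivity)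
      _ = (c * k1 * k2) ^ 2 * ∑ j, ‖w j‖ ^ 2 := by ring
      _ ≤ δ * ∑ j, ‖w j‖ ^ 2 := mul_le_mul_of_nonneg_right h5 hX
      _ ≤ _ := h1.trans h3

end Pool.Agent.Helper35.OB
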