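import Pool.Agent.Helper35.OB.AM

/-!
# Project OB (MP_0f6f3f_an), layer AM: the form used in the assembly
-/

set_option autoImplicit false
set_option linter.unusedSectionVars false

open MeasureTheory Filter Topology Matrix

namespace Pool.Agent.Helper35.OB

open Pool.Agent.Helper84 Pool.Agent.Helper84.GN Pool.Agent.Helper84.GN.S3 Pool.Agent.Helper84.GN.S3.X
open Pool.Agent.Helper84.NI Pool.Agent.Helper84.GVN Pool.Agent.Helper90.RK Pool.Agent.Helper78.BM
open Pool.Agent.Helper96.RK Pool.Agent.Helper66.FR Pool.Agent.Helper84.FR Pool.Agent.Helper55.FR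
open Pool.Agent.Helper55.OB
open Pool.Agent.Helper84.OB (fl NonInc)

variable {G1 X G Λ : Type} [Group G1] [TopologicalSpace G1] [IsTopologicalGroup G1] [MeasurableSpace X] [MulAction G1 X]
  [MeasurableConstSMul G1 X] [Group G] [Group Λ] [Countable Λ] {μ : Measure X} [SMulInvariantMeasure G1 X μ]
  [IsProbabilityMeasure μ] {a : Cocy G1 X Λ} {E : Emb Λ G} {N : ℕ} {P : PH G N} {S : Sv P}

/-- **Layer AM**: amplification. -/
theorem layerAM (hS : SO2 P S) (h3 : Tendsto (fun g : G1 => μ {x | a.a g x ≠ 1}) (𝓝 1) (𝓝 0))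
    (hF2 : ∀ l : Λ, Tendsto (fun g : G1 => μ {x | a.a g x = l}) (cocompact G1) (𝓝 0)) {b b' : ℕ → G1}
    {q : ℕ → G1} (hq : Tendsto q atTop (cocompact G1)) (hqb : ∀ n, q n ∈ Ctr b) (hqb' : ∀ n, q n ∈ Ctr b') :
    ∀ (A B : Set G), NonInc S A B → ∀ x,
      iUX (R1 S) A (Tb μ a E (R1 S) b (ContinuousLinearMap.adjoint (Tb μ a E (R2 S) b') (iUX (R2 S) B x))) = 0 := by
  intro A B hAB x
  refine am_main hS h3 (far_of (hF2 1) ?_) A B hAB x
  rintro ⟨K, hK, hDK⟩
  obtain ⟨n, hn⟩ := (hq.eventually hK.compl_mem_cocompact).exists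
  exact hn (hDK ⟨hqb n, hqb' n⟩)

end Pool.Agent.Helper35.OB
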